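import Pool.Agent.Helper15.GS.AsmG
import Pool.Agent.Helper10.HS.Main

/-! # GS: assembly of `S_GPOST` and `S_MAINGS` -/

open Complex Metric Set Filter Topology MeasureTheory
open scoped ContDiff ComplexConjugate ComplexOrder Manifold Matrix

namespace Pool.Agent.Helper15.GS

open Pool.Agent.Helper95.Lin Pool.Agent.Helper16.Abund Pool.Agent.Helper92.Orb
  Pool.Agent.Helper10.SP Pool.Agent.Helper95.RK Pool.Agent.Helper57.HS
  Pool.Agent.Helper15.HS Pool.Agent.Helper10.HS Pool.Agent.Helper15.RK Pool.Agent.Helper10.RK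

universe u v

theorem hermi_re_nonneg {n : ℕ} {A : Matrix (Fin n) (Fin n) ℂ} (hA : A.PosSemidef) (e : Cn n) :
    0 ≤ (hermi A e e).re := by
  have h1 := hA.dotProduct_mulVec_nonneg (star e)
  have h2 : star (star e) ⬝ᵥ A *ᵥ star e = hermi A e e := by
    rw [star_star]
    unfold hermi dotProduct Matrix.mulVec dotProduct
    refine Finset.sum_congr rfl fun i _ => ?_
    rw [Finset.mul_sum]
    refine Finset.sum_congr rfl fun j _ => ?_
    simp only [Pi.star_apply, Complex.star_def]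
    ring
  rw [h2] at h1
  exact (Complex.le_def.1 h1).1

theorem gpost (hCOREG : S_COREG.{u}) (hGB4 : S_GB4.{u}) (hGB5 : S_GB5.{u}) (hGAL : S_GAL)
    (hGPF : S_GPF.{u}) (hLMF : S_LMF) (hDETI : S_DETI.{u}) : S_GPOST.{u} := by
  intro n hn T G _ R H h hD
  have hTo : IsOpen T := hD.ket.et.isOpen
  obtain ⟨k, P, hk, hP⟩ := hCOREG T R H h hD
  rcases Nat.lt_or_ge k n with hlt | hge
  · left
    obtain ⟨Q, hQ⟩ := hGB4 hn T R H h hD k P hP
    refine ⟨k, hlt, Q, hQ.1, fun x hx => ?_⟩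
    have hb5 := hGB5 T R H h hD k P hP Q hQ x hx
    obtain ⟨hpsd, V, hV1, hV2⟩ := (hGAL k (h x) (Q x) (P x) (hD.her.posDef x hx)
      (hQ.1.posDef x hx) (hP.proj x hx) (hP.herm x hx) (hP.tr x hx)).2 hb5
    have hld : ContDiffOn ℝ ∞ (ld Q) T := by
      obtain ⟨d1, d2, -⟩ := hDETI T R Q hQ.1
      exact d2.log fun x hx => (d1 x hx).2.1.ne'
    have hL : LM (ld Q) x = Q x - P x * h x := by
      have h1 := hQ.2 x hx
      unfold rho at h1
      rw [h1]
      simp
    have hlev : ∀ e, ((lev (ld Q) x e : ℝ) : ℂ) = hermi (Q x - P x * h x) e e := by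
      intro e
      rw [(hLMF T hTo (ld Q) hld).2.2.1 x hx e, hL]
    refine ⟨fun e => ?_, V, hV1, fun e => ?_⟩
    · have h1 := congrArg Complex.re (hlev e)
      rw [Complex.ofReal_re] at h1
      rw [h1]
      exact hermi_re_nonneg hpsd e
    · rw [← hV2 e, ← hlev e]
      exact Complex.ofReal_eq_zero.symm
  · right
    have hkn : k = n := le_antisymm hk hge
    have hP1 : ∀ x ∈ T, P x = 1 := fun x hx =>
      (hGPF T R H h hD k P hP x hx).2.2.2.2.2 hkn
    have hPh : ∀ x ∈ T, P x * h x = h x := fun x hx => by rw [hP1 x hx, Matrix.one_mul]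
    refine ⟨⟨hD.her.smooth, fun x hx => (hD.her.posDef x hx).isHermitian, fun x hx i j l => ?_⟩,
      fun x hx i j l m => ?_⟩
    · have h1 := hP.chf.closed x hx i j l
      have h2 : ∀ i j l, cd l (fun y => (P y * h y) i j) x = cd l (fun y => h y i j) x := by
        intro i j l
        have h3 : (fun y => (P y * h y) i j) =ᶠ[𝓝 x] fun y => h y i j := by
          filter_upwards [hTo.mem_nhds hx] with y hy
          rw [hPh y hy]
        unfold cd
        rw [h3.fderiv_eq]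
      have h4 := h2 i j l
      have h5 := h2 l j i
      rw [← h4, ← h5]
      exact h1
    · have h1 := hP.null x hx i j l m
      rw [hP1 x hx] at h1
      simpa [Matrix.one_apply] using h1

theorem maings (hGPOST : S_GPOST.{u}) (hHERM : S_HERM.{u, v}) (hKAHM : S_KAHM.{u, v})
    (hKET : S_KETH.{u, v}) (hUNI : S_UNIH.{u, v}) (hPUSH : S_PUSHV.{u, v})
    (hFZ : S_FOLZ.{u, v}) (hFLD : S_FLD.{u, v}) (hFLF : S_FLF.{u, v}) (hFLTM : S_FLTM.{u, v})
    (hFR : S_FRONT.{u, v}) (hM : S_MAINRK.{u, v}) : S_MAINGS.{u, v} := by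
  intro n G M _ _ _ _ _ _ _ om q hD hq hqi hpsh
  rcases Nat.eq_zero_or_pos n with hn | hn
  · subst hn
    exact orb_zero
  obtain ⟨T, E, hE, hC⟩ := hUNI hn hD
  obtain ⟨hK, hpm⟩ := hKET hD T E hE hC
  obtain ⟨hher, hgsn⟩ := hHERM hD hq hqi T E hE hC
  rcases hGPOST hn T _ _ _ ⟨hK, hher, hgsn hpsh⟩ with ⟨k, hk, Q, hQ, hcor⟩ | ⟨hchf, hflat⟩
  · obtain ⟨v, hv, hvinv, -, hrank⟩ := hPUSH hD T E hE hC Q hQ
    have hr := hrank k hcor
    have hneg : GNeg n M q v := fun V ψ hψ σ hσ z hz _ e _ => hpsh V ψ hψ σ hσ z hz e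
    obtain ⟨b, rfl⟩ : ∃ b, n = b + k := ⟨n - k, by omega⟩
    have hDK : DataK b k G M om v := ⟨hD.act, hD.proper, hD.kah, hD.inv, hv, hvinv, hr⟩
    rcases Nat.eq_zero_or_pos k with hk0 | hk0
    · subst hk0
      exact hM (by omega) hDK (hFZ hDK)
    · exact hM (by omega) hDK (hFR hk0 hDK ⟨hq, hqi, Or.inl hneg⟩)
  · have hkah := hKAHM hD hq hqi T E hE hC hchf
    have hD' : DataH n G M q := ⟨hD.act, hD.proper, hkah, hqi⟩
    obtain ⟨k, rfl⟩ : ∃ k, n = 0 + k := ⟨n, (zero_add n).symm⟩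
    obtain ⟨v, hDK, hF⟩ := hFLD hD' (hFLTM hD' T E hE hC hflat)
    exact hFLF hDK hF

end Pool.Agent.Helper15.GS
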