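import Pool.Agent.Helper15.GS.AsmP
import Pool.Agent.Helper15.HS.MOMG
import Pool.Agent.Helper15.RK.AsmF
import Pool.Agent.Helper27.HS.TRC
import Pool.Agent.Helper16.HS.AAPS
import Pool.Agent.Helper2.HS.NULL0
import Pool.Agent.Helper8.HS.TRI
import Pool.Agent.Helper87.HS.DENS
import Pool.Agent.Helper19.HS.MAXF
import Pool.Agent.Helper89.HS.CMP
import Pool.Agent.Helper79.HS.AYGB
import Pool.Agent.Helper90.HS.AYX
import Pool.Agent.Helper94.HS.VENV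
import Pool.Agent.Helper46.HS.TAU
import Pool.Agent.Helper46.HS.DEGI
import Pool.Agent.Helper97.HS.GPT
import Pool.Agent.Helper31.HS.HOLS
import Pool.Agent.Helper69.HS.UPV
import Pool.Agent.Helper89.HS.CLA
import Pool.Agent.Helper56.HS.SBG
import Pool.Agent.Helper49.GS.GUB
import Pool.Agent.Helper65.GS.CMPG
import Pool.Agent.Helper8.GS.GVOL
import Pool.Agent.Helper31.GS.GSNC
import Pool.Agent.Helper56.GS.GB5
import Pool.Agent.Helper11.GS.GB4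
import Pool.Agent.Helper70.GS.GPF
import Pool.Agent.Helper88.GS.GB3
import Pool.Agent.Helper68.GS.GAL
import Pool.Agent.Helper55.GS.RKD
import Pool.Agent.Helper59.GS.LDI
import Pool.Agent.Helper5.GS.GAV
import Pool.Agent.Helper58.GS.GTR
import Pool.Agent.Helper94.GS.GDZ
import Pool.Agent.Helper34.GS.KAHM
import Pool.Agent.Helper18.GS.GEX
import Pool.Agent.Helper40.GS.GNL
import Pool.Agent.Helper61.GS.GB1
import Pool.Agent.Helper61.GS.HERM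
import Pool.Agent.Helper93.GS.GCLO
import Pool.Agent.Helper74.GS.INVG
import Pool.Agent.Helper84.GS.LAG
import Pool.Agent.Helper42.GS.GVB
import Pool.Agent.Helper64.GS.GCON
import Pool.Agent.Helper46.GS.GTH
import Pool.Agent.Helper46.GS.GLG
import Pool.Agent.Helper46.GS.LPG
import Pool.Agent.Helper54.GS.GDB

/-! # GS: the assembly of the analytic part

`S_AYG` (Aubin and Yau on an étale relation) is an argument. -/

open Complex Metric Set Filter Topology MeasureTheory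
open scoped ContDiff ComplexConjugate ComplexOrder Manifold Matrix

namespace Pool.Agent.Helper15.GS.Asm

open Pool.Agent.Helper95.Lin Pool.Agent.Helper16.Abund Pool.Agent.Helper92.Orb
  Pool.Agent.Helper10.SP Pool.Agent.Helper95.RK Pool.Agent.Helper57.HS
  Pool.Agent.Helper15.HS Pool.Agent.Helper10.HS Pool.Agent.Helper15.RK
  Pool.Agent.Helper10.SP.Asm Pool.Agent.Helper15.HS.Asm

universe u v

theorem t_TRC : Pool.Agent.Helper95.HS.S_TRC := Pool.Agent.Helper27.HS.trc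
theorem t_AAPS : Pool.Agent.Helper95.HS.S_AAPS := Pool.Agent.Helper16.HS.aaps
theorem t_NULL0 : Pool.Agent.Helper95.HS.S_NULL0.{u} := Pool.Agent.Helper2.HS.null0
theorem t_TRI : Pool.Agent.Helper95.HS.S_TRI.{u} := Pool.Agent.Helper8.HS.tri t_ARRB t_DETI t_LMID
theorem t_DENS : Pool.Agent.Helper95.HS.S_DENS.{u} :=
  Pool.Agent.Helper87.HS.dens t_LMF t_DETI t_KETP t_LOCB t_SUBM
theorem t_MAXF : Pool.Agent.Helper95.HS.S_MAXF.{u} := Pool.Agent.Helper19.HS.maxf t_LMF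
theorem t_CMP : Pool.Agent.Helper95.HS.S_CMP.{u} := Pool.Agent.Helper89.HS.cmp
theorem t_TAU : Pool.Agent.Helper95.HS.S_TAU := Pool.Agent.Helper46.HS.tau
theorem t_DEGI : Pool.Agent.Helper95.HS.S_DEGI := Pool.Agent.Helper46.HS.degi

section AYG
variable (hAYG : S_AYG.{u})
include hAYG

theorem t_AYGB : Pool.Agent.Helper95.HS.S_AYGB.{u} := Pool.Agent.Helper79.HS.aygb hAYG
theorem t_AYX : Pool.Agent.Helper95.HS.S_AYX.{u} :=
  Pool.Agent.Helper90.HS.ayx t_WIRT (t_AYGB hAYG) t_KETP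
theorem t_VENV : Pool.Agent.Helper95.HS.S_VENV.{u} :=
  Pool.Agent.Helper94.HS.venv t_WIRT t_MAXF t_TRC t_CMP t_KETP (t_AYX hAYG)
theorem t_GPT : Pool.Agent.Helper95.HS.S_GPT.{u} :=
  Pool.Agent.Helper97.HS.gpt t_MAXF t_TRC t_CHN t_KETP t_MOMV (t_AYX hAYG) t_TAU t_WIRT
theorem t_HOLS : Pool.Agent.Helper95.HS.S_HOLS.{u} :=
  Pool.Agent.Helper31.HS.hols t_KETP (t_GPT hAYG) t_LPQ
theorem t_UPV : Pool.Agent.Helper95.HS.S_UPV.{u} :=
  Pool.Agent.Helper69.HS.upv (t_HOLS hAYG) t_DEGI t_KETP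
theorem t_CLA : Pool.Agent.Helper95.HS.S_CLA.{u} :=
  Pool.Agent.Helper89.HS.cla (t_VENV hAYG) (t_UPV hAYG)
theorem t_SBG : Pool.Agent.Helper95.HS.S_SBG.{u} :=
  Pool.Agent.Helper56.HS.sbg t_WIRT t_MAXF t_TRC t_KETP t_MOMV (t_AYGB hAYG) (t_CLA hAYG)

end AYG

theorem t_RKD : S_RKD := Pool.Agent.Helper55.GS.rkd
theorem t_GAL : S_GAL := Pool.Agent.Helper68.GS.gal
theorem t_LAG : S_LAG := Pool.Agent.Helper84.GS.lag
theorem t_GTH : S_GTH := Pool.Agent.Helper46.GS.gth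
theorem t_GNL : S_GNL := Pool.Agent.Helper40.GS.gnl t_CSY
theorem t_LDI : S_LDI := Pool.Agent.Helper59.GS.ldi t_WIRT t_MCAL t_CSY
theorem t_GDB : S_GDB.{u} := Pool.Agent.Helper54.GS.gdb t_LDI
theorem t_GSNC : S_GSNC := Pool.Agent.Helper31.GS.gsnc t_WIRT t_LMF t_MCAL
theorem t_CMPG : S_CMPG.{u} := Pool.Agent.Helper65.GS.cmpg t_RHB
theorem t_INVG : S_INVG.{u} := Pool.Agent.Helper74.GS.invg t_WCH t_ARRB t_CSY t_RHOI
theorem t_LPG : S_LPG.{u} := Pool.Agent.Helper46.GS.lpg t_ARRB t_MCAL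
theorem t_GTR : S_GTR.{u} := Pool.Agent.Helper58.GS.gtr t_DETI (t_VOLP t_MOMG) t_TRC
theorem t_GLG : S_GLG.{u} := Pool.Agent.Helper46.GS.glg t_MCAL t_CL t_CLG t_CHN t_AAPS t_TRI
theorem t_GCLO : S_GCLO.{u} :=
  Pool.Agent.Helper93.GS.gclo t_MCAL t_WIRT t_CSY t_PARP t_PUE t_DETI
    Pool.Agent.Helper15.RK.Asm.t_ST2A Pool.Agent.Helper15.RK.Asm.t_POSK

section GRBC
variable (hGRBC : S_GRBC)
include hGRBC

theorem t_GPF : S_GPF.{u} := Pool.Agent.Helper70.GS.gpf t_CSY t_PARP hGRBC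
theorem t_GUB : S_GUB.{u} := Pool.Agent.Helper49.GS.gub t_UB hGRBC
theorem t_GVB : S_GVB.{u} := Pool.Agent.Helper42.GS.gvb t_RHOI t_MOMG (t_GPF hGRBC)
theorem t_GAV : S_GAV.{u} := Pool.Agent.Helper5.GS.gav t_CMPG (t_GVB hGRBC) t_TRC
theorem t_GVOL : S_GVOL.{u} :=
  Pool.Agent.Helper8.GS.gvol t_WIRT t_DETI t_RHOI t_MOMG hGRBC t_RKD
    Pool.Agent.Helper15.RK.Asm.t_POSK
theorem t_GB5 : S_GB5.{u} :=
  Pool.Agent.Helper56.GS.gb5 t_PUE t_MCAL t_CLG t_AAPS t_TRI t_NULL0 t_TRC t_KETP (t_GPF hGRBC)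
    (t_GVB hGRBC) t_GAL
theorem t_GDZ : S_GDZ.{u} :=
  Pool.Agent.Helper94.GS.gdz t_CMPG t_GDB (t_QPD t_MOMG) (t_AVC t_MOMG) t_INVG hGRBC t_INVK
theorem t_GCON : S_GCON.{u} :=
  Pool.Agent.Helper64.GS.gcon t_DETI t_CMPG (t_GUB hGRBC) t_RHOI hGRBC t_TRI t_LDI t_GDB t_INVG
    t_LAG t_GTR

variable (hAYG : S_AYG.{u})
include hAYG

theorem t_GEX : S_GEX.{u} := Pool.Agent.Helper18.GS.gex hAYG t_CMPG (t_GUB hGRBC) t_RHOI
theorem t_GB1 : S_GB1.{u} :=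
  Pool.Agent.Helper61.GS.gb1 hAYG (t_GEX hGRBC hAYG) t_RHOI (t_GPF hGRBC)
theorem t_GB3 : S_GB3.{u} :=
  Pool.Agent.Helper88.GS.gb3 (t_SBG hAYG) t_DENS t_PUE t_NULL0 t_CMPG hGRBC (t_GPF hGRBC)
    (t_GB1 hGRBC hAYG) t_GLG (t_GAV hGRBC) t_RHB t_RHOI
theorem t_GB4 : S_GB4.{u} := Pool.Agent.Helper11.GS.gb4 (t_GB3 hGRBC hAYG) hAYG t_RHOI
theorem t_COREG : S_COREG.{u} :=
  coreg t_PUE (t_GEX hGRBC hAYG) (t_VOLP t_MOMG) (t_QPD t_MOMG) t_CMPG t_LAG (t_GCON hGRBC)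
    (t_GDZ hGRBC) t_GDB t_INVG t_INVK t_LIMG t_LOWQ (t_AVC t_MOMG) t_LPG hGRBC t_GNL t_GTH t_GCLO
    (t_GVOL hGRBC) t_KAPI t_RHOI
theorem t_GPOST : S_GPOST.{u} :=
  gpost (t_COREG hGRBC hAYG) (t_GB4 hGRBC hAYG) (t_GB5 hGRBC) t_GAL (t_GPF hGRBC) t_LMF t_DETI

end GRBC

end Pool.Agent.Helper15.GS.Asm
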