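import Pool.Agent.Helper15.GS.GoalsF
import Pool.Agent.Helper15.HS.AsmC
import Pool.Agent.Helper80.HS.CL

/-! # GS: assembly of `S_COREG` -/

open Complex Metric Set Filter Topology MeasureTheory
open scoped ContDiff ComplexConjugate ComplexOrder Manifold Matrix

namespace Pool.Agent.Helper15.GS

open Pool.Agent.Helper95.Lin Pool.Agent.Helper16.Abund Pool.Agent.Helper92.Orb
  Pool.Agent.Helper10.SP Pool.Agent.Helper95.RK Pool.Agent.Helper57.HS
  Pool.Agent.Helper15.HS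
open Pool.Agent.Helper45.HS (SmM)

universe u v

theorem SeqG.sub {n : ℕ} {k : ℕ} {T : Set (Cn n)} {G : Type u} [Group G]
    {R : G → Cn n → Cn n → Prop} {H h : Cn n → Matrix (Fin n) (Fin n) ℂ} {κ : Cn n → ℝ}
    {ε τ : ℕ → ℝ} {Q : ℕ → Cn n → Matrix (Fin n) (Fin n) ℂ} (hS : SeqG k T R H h κ ε τ Q)
    {φ : ℕ → ℕ} (hφ : StrictMono φ) :
    SeqG k T R H h κ (fun j => ε (φ j)) (fun j => τ (φ j)) (fun j => Q (φ j)) where
  eps := fun j => hS.eps _
  lim := hS.lim.comp hφ.tendsto_atTop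
  tau := fun j => hS.tau _
  tke := fun j => hS.tke _
  a1 := hS.a1.comp hφ.tendsto_atTop
  a2 := hS.a2.comp hφ.tendsto_atTop
  a3 := hS.a3.comp hφ.tendsto_atTop
  a4 := hS.a4.comp hφ.tendsto_atTop
  a5 := hS.a5.comp hφ.tendsto_atTop

/-- The contraction of the curvature with `h⁻¹` in the form indices. -/
noncomputable def Wc {n : ℕ} (h : Cn n → Matrix (Fin n) (Fin n) ℂ) (x : Cn n) :
    Matrix (Fin n) (Fin n) ℂ := Matrix.of fun i j => ∑ k, ∑ l, (h x)⁻¹ l k * crv h x i j k l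

theorem trace_Wc {n : ℕ} (h : Cn n → Matrix (Fin n) (Fin n) ℂ) (x : Cn n)
    (Z : Matrix (Fin n) (Fin n) ℂ) :
    Matrix.trace (-(Wc h x) * (h x)⁻¹ * Z) = - crvP h ((h x)⁻¹ * Z) (h x)⁻¹ x := by
  rw [Matrix.mul_assoc, Matrix.neg_mul, Matrix.trace_neg]
  congr 1
  unfold crvP Matrix.trace
  refine Finset.sum_congr rfl fun i _ => ?_
  rw [Matrix.diag_apply, Matrix.mul_apply]
  refine Finset.sum_congr rfl fun j _ => ?_
  unfold Wc
  rw [Matrix.of_apply, Finset.sum_mul]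
  refine Finset.sum_congr rfl fun k _ => ?_
  rw [Finset.sum_mul]
  refine Finset.sum_congr rfl fun l _ => ?_
  ring

theorem coreg (hPUE : S_PUE.{u}) (hGEX : S_GEX.{u}) (hVOLP : S_VOLP.{u}) (hQPD : S_QPD.{u})
    (hCMPG : S_CMPG.{u}) (hLAG : S_LAG) (hGCON : S_GCON.{u}) (hGDZ : S_GDZ.{u})
    (hGDB : S_GDB.{u}) (hINVG : S_INVG.{u}) (hINVK : S_INVK.{u}) (hLIMG : S_LIMG.{u})
    (hLOWQ : S_LOWQ.{u}) (hAVC : S_AVC.{u}) (hLPG : S_LPG.{u}) (hGRBC : S_GRBC)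
    (hGNL : S_GNL) (hGTH : S_GTH) (hGCLO : S_GCLO.{u}) (hGVOL : S_GVOL.{u})
    (hKAPI : S_KAPI.{u}) (hRHOI : S_RHOI.{u}) : S_COREG.{u} := by
  intro n T G _ R H h hD
  have hK := hD.ket
  have hh := hD.her
  have hTo : IsOpen T := hK.et.isOpen
  have hex := hGEX T R H h hD
  obtain ⟨κ, hκ⟩ := hPUE T R hK.et
  obtain ⟨hV1, k, p, hk, hp, hV⟩ := hVOLP T R H hK κ hκ hex
  obtain ⟨c, C, hcC⟩ := hCMPG T R H h hK hh
  obtain ⟨ε₀, τ₀, Q₀, hS₀⟩ := hGCON T R H h hD κ hκ hex k p hk hp hV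
  obtain ⟨K, hKpos, hQPF, hQtr⟩ := hQPD T R H hK κ hκ hex k p hp hV
  have hexp : ∀ (ε : ℝ) (Q : Cn n → Matrix (Fin n) (Fin n) ℂ), 0 < ε → ε ≤ 1 →
      TKE T R H ε Q → ∀ x ∈ T, Real.exp (Real.log (dens k ε H Q x)) = dens k ε H Q x :=
    fun ε Q h1 h2 h3 x hx => Real.exp_log ((hQPF ε Q h1 h2 h3).2 x hx)
  have hher : ∀ (ε : ℝ) (Q : Cn n → Matrix (Fin n) (Fin n) ℂ), TKE T R H ε Q → HerT T R Q :=
    fun ε Q hQ => ⟨hQ.ket.posDef, hQ.ket.smooth, hQ.ket.inv⟩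
  have hbd : ∀ C ⊆ T, IsCompact C → ∃ B : ℝ, ∀ (ε τ : ℝ)
      (Q : Cn n → Matrix (Fin n) (Fin n) ℂ), 0 < τ → TKE T R H ε Q → ∀ x ∈ C, ∀ a c,
      ‖YS τ h Q x a c‖ ≤ B := by
    intro C hC hCc
    obtain ⟨B, -, hB⟩ := hGDB T R h hh C hC hCc
    exact ⟨B, fun ε τ Q hτ hQ x hx a c => (hB τ Q hτ hQ.ket x hx).1 a c⟩
  -- the limit
  obtain ⟨φ, hφ, P', hP'1, hP'2⟩ := hLIMG (ι := Fin n × Fin n) T R H hK K
    (fun j x => Real.log (dens k (ε₀ j) H (Q₀ j) x))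
    (fun j x c => YS (τ₀ j) h (Q₀ j) x c.1 c.2)
    (fun j => (hQPF (ε₀ j) (Q₀ j) (hS₀.eps j).1 (hS₀.eps j).2 (hS₀.tke j)).1)
    (fun j c => (hINVG T R hK.et h (Q₀ j) (τ₀ j) (hS₀.tau j) hh
      (hher _ _ (hS₀.tke j))).2.1 c.1 c.2)
    (fun C hC hCc => by
      obtain ⟨B, hB⟩ := hbd C hC hCc
      exact ⟨B, fun j x hx c => hB (ε₀ j) (τ₀ j) (Q₀ j) (hS₀.tau j) (hS₀.tke j) x hx c.1 c.2⟩)
    (fun C hC hCc l c => by
      have h1 := (hGDZ T R H h hD κ hκ hex k p hp hV ε₀ τ₀ Q₀ hS₀ C hC hCc).1 l c.1 c.2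
      refine h1.congr fun j => ?_
      refine setIntegral_congr_fun hCc.measurableSet fun x hx => ?_
      show _ = Real.exp (Real.log (dens k (ε₀ j) H (Q₀ j) x)) * _
      rw [hexp (ε₀ j) (Q₀ j) (hS₀.eps j).1 (hS₀.eps j).2 (hS₀.tke j) x (hC hx)])
  set P : Cn n → Matrix (Fin n) (Fin n) ℂ := fun x => Matrix.of fun i j => P' x (i, j) with hP
  set ε : ℕ → ℝ := fun j => ε₀ (φ j) with hε
  set τ : ℕ → ℝ := fun j => τ₀ (φ j) with hτ
  set Q : ℕ → Cn n → Matrix (Fin n) (Fin n) ℂ := fun j => Q₀ (φ j) with hQ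
  have hS : SeqG k T R H h κ ε τ Q := hS₀.sub hφ
  have hpos : ∀ j, 0 < ε j := fun j => (hS.eps j).1
  have hle1 : ∀ j, ε j ≤ 1 := fun j => (hS.eps j).2
  have htke := hS.tke
  have hIG := fun j => hINVG T R hK.et h (Q j) (τ j) (hS.tau j) hh (hher _ _ (htke j))
  have hholo : ∀ i j, DifferentiableOn ℂ (fun x => P x i j) T := fun i j => hP'1 (i, j)
  have hconv : ∀ C ⊆ T, IsCompact C → ∀ a c, Tendsto (fun j => ∫ x in C,
      dens k (ε j) H (Q j) x * ‖YS (τ j) h (Q j) x a c - P x a c‖) atTop (𝓝 0) := by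
    intro C hC hCc a c
    refine (hP'2 C hC hCc (a, c)).congr fun j => ?_
    refine setIntegral_congr_fun hCc.measurableSet fun x hx => ?_
    show Real.exp (Real.log (dens k (ε j) H (Q j) x)) * _ = _
    rw [hexp (ε j) (Q j) (hpos j) (hle1 j) (htke j) x (hC hx)]
    rfl
  have hw : WtS T R fun j x => dens k (ε j) H (Q j) x := by
    refine ⟨fun j => ?_, fun j x hx => ?_, fun j γ x y hxy => ?_, ?_, fun C hC hCc hv => ?_⟩
    · have h1 := (hQPF (ε j) (Q j) (hpos j) (hle1 j) (htke j)).1.inv.1.continuousOn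
      refine (Real.continuous_exp.comp_continuousOn h1).congr fun x hx => ?_
      exact (hexp (ε j) (Q j) (hpos j) (hle1 j) (htke j) x hx).symm
    · exact ((hQPF (ε j) (Q j) (hpos j) (hle1 j) (htke j)).2 x hx).le
    · obtain ⟨hx, hy⟩ := hK.et.mem γ x y hxy
      show dens k (ε j) H (Q j) y = dens k (ε j) H (Q j) x
      have h1 : Real.log (dens k (ε j) H (Q j) y) = Real.log (dens k (ε j) H (Q j) x) :=
        (hQPF (ε j) (Q j) (hpos j) (hle1 j) (htke j)).1.inv.2 γ x y hxy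
      rw [← hexp (ε j) (Q j) (hpos j) (hle1 j) (htke j) x hx,
        ← hexp (ε j) (Q j) (hpos j) (hle1 j) (htke j) y hy, h1]
    · refine ⟨Real.exp K, fun j x hx => ?_⟩
      show dens k (ε j) H (Q j) x ≤ _
      rw [← hexp (ε j) (Q j) (hpos j) (hle1 j) (htke j) x hx]
      exact Real.exp_le_exp.2 ((hQPF (ε j) (Q j) (hpos j) (hle1 j) (htke j)).1.le x hx)
    · obtain ⟨c, hc, h⟩ := hLOWQ T R H hK K C hC hCc hv
      refine ⟨c, hc, fun j => ?_⟩
      have h1 := h _ (hQPF (ε j) (Q j) (hpos j) (hle1 j) (htke j)).1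
      refine h1.trans (le_of_eq ?_)
      refine setIntegral_congr_fun hCc.measurableSet fun x hx => ?_
      exact hexp (ε j) (Q j) (hpos j) (hle1 j) (htke j) x (hC hx)
  have hlag : ∀ j, ∀ x ∈ T, 0 ≤ (Matrix.trace (Sqd (YS (τ j) h (Q j) x))).re := by
    intro j x hx
    exact (hLAG k (H x) (h x) (Q j x) _ (YS (τ j) h (Q j) x) c C (ε j) (τ j) hk
      (hK.posDef x hx) (hh.posDef x hx) ((htke j).ket.posDef x hx) hcC.1 hcC.2.1 (hpos j)
      (hS.tau j) (hcC.2.2 x hx).1 (hcC.2.2 x hx).2 rfl rfl).1.2.2.1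
  have hYc : ∀ j, SmM (YS (τ j) h (Q j)) T := fun j => (hIG j).2.1
  have hSq : ∀ j, SmM (fun x => Sqd (YS (τ j) h (Q j) x)) T := by
    intro j
    have h1 := hYc j
    have h2 : SmM (fun x => YS (τ j) h (Q j) x * YS (τ j) h (Q j) x - YS (τ j) h (Q j) x) T :=
      (h1.mul h1).sub h1
    exact h2.mul h2
  have hav : ∀ f : ℕ → Cn n → ℝ, (∀ j, ContinuousOn (f j) T) → (∀ j, ∀ x ∈ T, 0 ≤ f j x) →
      (∀ j γ x y, R γ x y → f j y = f j x) →
      Tendsto (fun j => avE T κ (Q j) (f j)) atTop (𝓝 0) → ∀ C ⊆ T, IsCompact C →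
      Tendsto (fun j => ∫ x in C, dens k (ε j) H (Q j) x * f j x) atTop (𝓝 0) :=
    hAVC T R H hK κ hκ hex k p hp hV ε Q hpos hS.lim htke
  have hinv : SmM (fun x => (h x)⁻¹) T := SmM.inv hh.smooth fun x hx =>
    (hh.posDef x hx).isUnit.map Matrix.detMonoidHom |>.ne_zero
  obtain ⟨hr1, -⟩ := hRHOI T R h hK.et hh
  have hrs : SmM (fun x => rho h x * (h x)⁻¹) T := SmM.mul hr1.smooth hinv
  have hGR := fun x hx => (hGRBC T hTo h hh.posDef hh.smooth hD.gsn).2 x hx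
  have hXpsd : ∀ j, ∀ x ∈ T, ((h x)⁻¹ * YS (τ j) h (Q j) x).PosSemidef := by
    intro j x hx
    have hu : IsUnit (h x).det := (hh.posDef x hx).isUnit.map Matrix.detMonoidHom
    have h1 := ((hIG j).2.2.1 x hx).2.1
    have h2 : (h x)⁻¹ * YS (τ j) h (Q j) x =
        (h x)⁻¹ * (YS (τ j) h (Q j) x * h x) * ((h x)⁻¹)ᴴ := by
      have h3 : ((h x)⁻¹)ᴴ = (h x)⁻¹ := (hh.posDef x hx).inv.isHermitian
      rw [h3, ← Matrix.mul_assoc, Matrix.mul_assoc _ (h x), Matrix.mul_nonsing_inv _ hu,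
        Matrix.mul_one]
    rw [h2]
    exact h1.mul_mul_conjTranspose_same _
  have ha5 : ∀ j, ∀ x ∈ T,
      0 ≤ (Matrix.trace (rho h x * (h x)⁻¹ * YS (τ j) h (Q j) x)).re := by
    intro j x hx
    have h1 := (hGR x hx).2.2
    have h2 := hXpsd j x hx
    have h3 := Pool.Agent.Helper80.HS.tr_nonneg h1 h2 1
    rw [Matrix.one_mul, Matrix.conjTranspose_one, Matrix.mul_one] at h3
    rw [Matrix.mul_assoc]
    exact (Complex.le_def.1 h3).1
  obtain ⟨q1, q2, q3, q4, q5⟩ := hLPG T R hK.et h hh _ hw k (fun j => YS (τ j) h (Q j)) P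
    (fun j a c => (hYc j a c).continuousOn)
    (fun C hC hCc => by
      obtain ⟨B, hB⟩ := hbd C hC hCc
      exact ⟨B, fun j x hx a c => hB (ε j) (τ j) (Q j) (hS.tau j) (htke j) x hx a c⟩)
    (fun j x hx => ((hIG j).2.2.1 x hx).1) (fun j => (hIG j).2.2.2.1) hholo hconv
    (hav _ (fun j => Complex.continuous_re.comp_continuousOn (hSq j).trace.continuousOn) hlag
      (fun j γ x y hxy => by
        exact congrArg Complex.re ((hIG j).2.2.2.2.2.2.1 γ x y hxy).2.2.2.1) hS.a1)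
    (hav _ (fun j => ((Complex.continuous_re.comp_continuousOn
        (hYc j).trace.continuousOn).sub continuousOn_const).pow 2) (fun j x _ => sq_nonneg _)
      (fun j γ x y hxy => by
        have h1 := ((hIG j).2.2.2.2.2.2.1 γ x y hxy).2.2.1
        show ((Matrix.trace (YS (τ j) h (Q j) y)).re - k) ^ 2 =
          ((Matrix.trace (YS (τ j) h (Q j) x)).re - k) ^ 2
        rw [h1]) hS.a2)
  have hric : ∀ x ∈ T, P x * rho h x = 0 := by
    intro x hx
    refine hGTH (h x) (rho h x) (P x) (hh.posDef x hx) (hGR x hx).2.2 (q1 x hx) (q3 x hx) ?_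
    exact q5 (fun x => rho h x * (h x)⁻¹) (fun i j => (hrs i j).continuousOn) ha5
      (hav _ (fun j => Complex.continuous_re.comp_continuousOn
          (hrs.mul (hYc j)).trace.continuousOn) ha5
        (fun j γ x y hxy => by
          exact congrArg Complex.re ((hIG j).2.2.2.2.2.2.1 γ x y hxy).2.2.2.2) hS.a5) x hx
  have hcr : ∀ i j k l, ContinuousOn (fun x => crv h x i j k l) T := by
    have h1 : HerT T R H := ⟨hK.posDef, hK.smooth, hK.inv⟩
    exact (hINVK T R hK.et h H hh h1).2.2.2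
  have hWc : ∀ i j, ContinuousOn (fun x => (-(Wc h x) * (h x)⁻¹) i j) T := by
    intro i j
    have h1 : (fun x => (-(Wc h x) * (h x)⁻¹) i j) = fun x => ∑ q, -(Wc h x i q) * (h x)⁻¹ q j := by
      funext x
      rw [Matrix.mul_apply]
      rfl
    rw [h1]
    refine continuousOn_finset_sum _ fun q _ => ?_
    refine (ContinuousOn.neg ?_).mul (hinv q j).continuousOn
    show ContinuousOn (fun x => ∑ k, ∑ l, (h x)⁻¹ l k * crv h x i q k l) T
    exact continuousOn_finset_sum _ fun k _ => continuousOn_finset_sum _ fun l _ =>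
      (hinv l k).continuousOn.mul (hcr i q k l)
  have hnull : ∀ x ∈ T, ∀ i j l m, ∑ p, P x i p * crv h x p j l m = 0 := by
    intro x hx
    refine hGNL T hTo h hh.posDef hh.smooth hD.gsn x hx (P x) (q1 x hx) (q3 x hx) ?_
    have h1 := q5 (fun x => -(Wc h x) * (h x)⁻¹) hWc
      (fun j x hx => by
        show 0 ≤ (Matrix.trace (-(Wc h x) * (h x)⁻¹ * YS (τ j) h (Q j) x)).re
        rw [trace_Wc, Complex.neg_re]
        have := (hGR x hx).1 _ _ (hXpsd j x hx) (hh.posDef x hx).inv.posSemidef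
        linarith)
      (fun C hC hCc => by
        refine (hGDZ T R H h hD κ hκ hex k p hp hV ε τ Q hS C hC hCc).2.congr fun j => ?_
        refine setIntegral_congr_fun hCc.measurableSet fun x hx => ?_
        show _ = dens k (ε j) H (Q j) x *
          (Matrix.trace (-(Wc h x) * (h x)⁻¹ * YS (τ j) h (Q j) x)).re
        rw [trace_Wc, Complex.neg_re]) x hx
    have h2 : (Matrix.trace (-(Wc h x) * (h x)⁻¹ * P x)).re = 0 := h1
    rw [trace_Wc, Complex.neg_re] at h2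
    linarith
  refine ⟨k, P, hk, hholo, q1, q2, q3, q4, ?_, hnull, hric, fun κ' hκ' => ?_⟩
  · exact hGCLO T R H h hD P hholo q1 q3 q4 hnull
  · refine hGVOL T R H h hD κ' hκ' k p hp (fun s => ?_) P hholo q1 q2 q3 q4 hric
    rw [volP_indep hKAPI hRHOI hK hκ hκ' s, hV s]

end Pool.Agent.Helper15.GS
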