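import Pool.Agent.Helper15.GS.Asm
import Pool.Agent.Helper10.RK.Asm
import Pool.Agent.Helper10.HS.PARH
import Pool.Agent.Helper10.HS.PMH
import Pool.Agent.Helper10.HS.KETH
import Pool.Agent.Helper10.HS.UNIH
import Pool.Agent.Helper69.HS.PUSHV
import Pool.Agent.Helper8.HS.FOLZ
import Pool.Agent.Helper24.HS.FLD
import Pool.Agent.Helper24.HS.FLE
import Pool.Agent.Helper24.HS.FLF
import Pool.Agent.Helper49.HS.FLS
import Pool.Agent.Helper55.HS.FLTM

/-! # GS: the assembly of the main theorem -/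

open Complex Metric Set Filter Topology MeasureTheory
open scoped ContDiff ComplexConjugate ComplexOrder Manifold Matrix

namespace Pool.Agent.Helper15.GS.Asm

open Pool.Agent.Helper95.Lin Pool.Agent.Helper16.Abund Pool.Agent.Helper92.Orb
  Pool.Agent.Helper10.SP Pool.Agent.Helper95.RK Pool.Agent.Helper57.HS
  Pool.Agent.Helper15.HS Pool.Agent.Helper10.HS Pool.Agent.Helper15.RK
  Pool.Agent.Helper10.SP.Asm Pool.Agent.Helper15.HS.Asm Pool.Agent.Helper10.RK.Asm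

universe u v

theorem t_PARH : S_PARH.{u, v} := Pool.Agent.Helper10.HS.PARHp.parh
theorem t_PMH : S_PMH.{u, v} := Pool.Agent.Helper10.HS.PMHp.pmh
theorem t_KETH : S_KETH.{u, v} := Pool.Agent.Helper10.HS.KETHp.keth t_PARH t_PMH
theorem t_UNIH : S_UNIH.{u, v} := Pool.Agent.Helper10.HS.UNIHp.unih t_PARH
theorem t_PUSHV : S_PUSHV.{u, v} := Pool.Agent.Helper69.HS.pushv t_PARH t_DETI t_WCH
theorem t_FOLZ : S_FOLZ.{u, v} := Pool.Agent.Helper8.HS.folz
theorem t_FLD : S_FLD.{u, v} := Pool.Agent.Helper24.HS.fld t_LMF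
theorem t_FLS : S_FLS.{u, v} := Pool.Agent.Helper49.HS.fls tB_AFFC tB_PARBK tB_PMB t_WCH
theorem t_FLE : S_FLE.{u, v} :=
  Pool.Agent.Helper24.HS.fle t_FLS tB_EXTSK tB_TRSK t_IDM tB_PARBK
theorem t_FLF : S_FLF.{u, v} := Pool.Agent.Helper24.HS.flf t_FLE tJ_AFB tB_PARBK
theorem t_FLTM : S_FLTM.{u, v} := Pool.Agent.Helper55.HS.fltm t_PARH t_PMH t_KETH t_WCH
theorem t_KAHM : S_KAHM.{u, v} := Pool.Agent.Helper34.GS.kahm t_PARH t_PMH
theorem t_HERM : S_HERM.{u, v} := Pool.Agent.Helper61.GS.herm_ t_PMH t_GSNC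

theorem t_MAINGS_of (hGRBC : S_GRBC) (hAYG : S_AYG.{u}) : S_MAINGS.{u, v} :=
  maings (t_GPOST hGRBC hAYG) t_HERM t_KAHM t_KETH t_UNIH t_PUSHV t_FOLZ t_FLD t_FLF t_FLTM
    t_FRONT tH_MAINRK

end Pool.Agent.Helper15.GS.Asm
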