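import Pool.Agent.Helper15.HS.GoalsC
import Pool.Agent.Helper95.HS.GoalsB
import Pool.Agent.Helper15.RK.GoalsF

/-!
# GS: compact Kähler manifolds with a Griffiths seminegative Hermitian metric on the tangent bundle

Internal definitions. `H` is an invariant Kähler metric, `h` an invariant Hermitian metric (not necessarily
Kähler) whose Chern curvature is Griffiths seminegative. Conventions of `Helper57/HS/Defs.lean`.
-/

open Complex Metric Set Filter Topology MeasureTheory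
open scoped ContDiff ComplexConjugate ComplexOrder Manifold Matrix

namespace Pool.Agent.Helper15.GS

open Pool.Agent.Helper95.Lin Pool.Agent.Helper16.Abund Pool.Agent.Helper92.Orb
  Pool.Agent.Helper10.SP Pool.Agent.Helper95.RK Pool.Agent.Helper57.HS
  Pool.Agent.Helper15.HS

universe u v

/-- The Chern curvature of the Hermitian metric `h` is Griffiths seminegative. -/
def GSN {n : ℕ} (h : Cn n → Matrix (Fin n) (Fin n) ℂ) (W : Set (Cn n)) : Prop :=
  ∀ x ∈ W, ∀ u v : Cn n,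
    (∑ i, ∑ j, ∑ k, ∑ l, crv h x i j k l * u i * conj (u j) * v k * conj (v l)).re ≤ 0

/-- `H` is an invariant Kähler metric, `h` an invariant Griffiths seminegative Hermitian metric. -/
structure GDat {n : ℕ} (T : Set (Cn n)) {G : Type u} [Group G] (R : G → Cn n → Cn n → Prop)
    (H h : Cn n → Matrix (Fin n) (Fin n) ℂ) : Prop where
  ket : KEt T R H
  her : HerT T R h
  gsn : GSN h T

/-- `c h ≤ H ≤ C h`. -/
def Cmp {n : ℕ} (c C : ℝ) (T : Set (Cn n)) (H h : Cn n → Matrix (Fin n) (Fin n) ℂ) : Prop :=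
  0 < c ∧ 0 < C ∧ ∀ x ∈ T, (H x - (c : ℂ) • h x).PosSemidef ∧ ((C : ℂ) • h x - H x).PosSemidef

/-- The Hermitian metric `Q + τ h`. -/
noncomputable def mS {n : ℕ} (τ : ℝ) (h Q : Cn n → Matrix (Fin n) (Fin n) ℂ) (x : Cn n) :
    Matrix (Fin n) (Fin n) ℂ := Q x + (τ : ℂ) • h x

/-- The endomorphism `Y = τ h (Q + τ h)⁻¹`. -/
noncomputable def YS {n : ℕ} (τ : ℝ) (h Q : Cn n → Matrix (Fin n) (Fin n) ℂ) (x : Cn n) :
    Matrix (Fin n) (Fin n) ℂ := (τ : ℂ) • (h x * (mS τ h Q x)⁻¹)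

/-- The second fundamental form term, `A_k = Gam Q k - Gam h k`, `Q (Q + τ h)⁻¹ τ h` is the parallel sum. -/
noncomputable def Er1 {n : ℕ} (τ : ℝ) (h Q : Cn n → Matrix (Fin n) (Fin n) ℂ) (x : Cn n) : ℝ :=
  (∑ k, ∑ l, (Q x)⁻¹ l k * Matrix.trace (Adf h Q k x *
    (Q x * (mS τ h Q x)⁻¹ * ((τ : ℂ) • h x)) * (Adf h Q l x)ᴴ * (mS τ h Q x)⁻¹)).re

/-- The curvature term. -/
noncomputable def Er2 {n : ℕ} (τ : ℝ) (h Q : Cn n → Matrix (Fin n) (Fin n) ℂ) (x : Cn n) : ℝ :=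
  - τ * (crvP h (mS τ h Q x)⁻¹ (Q x)⁻¹ x).re

/-- `(Y² - Y)²`. -/
def Sqd {n : ℕ} (Y : Matrix (Fin n) (Fin n) ℂ) : Matrix (Fin n) (Fin n) ℂ :=
  (Y * Y - Y) * (Y * Y - Y)

/-- The sequences of metrics used in the limit. -/
structure SeqG {n : ℕ} (k : ℕ) (T : Set (Cn n)) {G : Type u} [Group G]
    (R : G → Cn n → Cn n → Prop) (H h : Cn n → Matrix (Fin n) (Fin n) ℂ) (κ : Cn n → ℝ)
    (ε τ : ℕ → ℝ) (Q : ℕ → Cn n → Matrix (Fin n) (Fin n) ℂ) : Prop where
  eps : ∀ j, 0 < ε j ∧ ε j ≤ 1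
  lim : Tendsto ε atTop (𝓝 0)
  tau : ∀ j, 0 < τ j
  tke : ∀ j, TKE T R H (ε j) (Q j)
  a1 : Tendsto (fun j => avE T κ (Q j) fun x => (Matrix.trace (Sqd (YS (τ j) h (Q j) x))).re)
    atTop (𝓝 0)
  a2 : Tendsto (fun j => avE T κ (Q j) fun x => ((Matrix.trace (YS (τ j) h (Q j) x)).re - k) ^ 2)
    atTop (𝓝 0)
  a3 : Tendsto (fun j => avE T κ (Q j) (Er1 (τ j) h (Q j))) atTop (𝓝 0)
  a4 : Tendsto (fun j => avE T κ (Q j) (Er2 (τ j) h (Q j))) atTop (𝓝 0)
  a5 : Tendsto (fun j => avE T κ (Q j) fun x =>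
    (Matrix.trace (rho h x * (h x)⁻¹ * YS (τ j) h (Q j) x)).re) atTop (𝓝 0)

/-- Weights: nonnegative continuous invariant functions, uniformly bounded, whose integrals over compact
sets of positive measure are bounded below. -/
structure WtS {n : ℕ} (T : Set (Cn n)) {G : Type u} (R : G → Cn n → Cn n → Prop)
    (w : ℕ → Cn n → ℝ) : Prop where
  cont : ∀ j, ContinuousOn (w j) T
  nonneg : ∀ j, ∀ x ∈ T, 0 ≤ w j x
  inv : ∀ j γ x y, R γ x y → w j y = w j x
  bdd : ∃ C : ℝ, ∀ j, ∀ x ∈ T, w j x ≤ C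
  low : ∀ C ⊆ T, IsCompact C → 0 < volume C → ∃ c > 0, ∀ j, c ≤ ∫ x in C, w j x

/-- The output of the core: `P` is a holomorphic `h`-orthogonal projector of rank `k`, `P h` is closed and
invariant, the image of `P` is in the nullity of the curvature of `h` and in the kernel of `rho h`, and
`k` is the order of vanishing of the volume. -/
structure ParG {n : ℕ} (k : ℕ) (T : Set (Cn n)) {G : Type u} [Group G]
    (R : G → Cn n → Cn n → Prop) (h : Cn n → Matrix (Fin n) (Fin n) ℂ)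
    (P : Cn n → Matrix (Fin n) (Fin n) ℂ) : Prop where
  holo : ∀ i j, DifferentiableOn ℂ (fun x => P x i j) T
  proj : ∀ x ∈ T, P x * P x = P x
  tr : ∀ x ∈ T, Matrix.trace (P x) = k
  herm : ∀ x ∈ T, P x * h x = h x * (P x)ᴴ
  inv : InvH R fun x => P x * h x
  chf : CHF (fun x => P x * h x) T
  null : ∀ x ∈ T, ∀ i j l m, ∑ p, P x i p * crv h x p j l m = 0
  ric : ∀ x ∈ T, P x * rho h x = 0
  vol : ∀ κ, IsPUE T R κ → 0 < ∫ x in T, κ x * (rho h x + P x * h x).det.re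

end Pool.Agent.Helper15.GS
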