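import Pool.Agent.Helper15.GS.Defs

/-!
# GS, goals D: the core (construction of the projector `P`)

`H` invariant Kähler, `h` invariant Hermitian with Griffiths seminegative Chern curvature. `Q` are the
twisted Kähler–Einstein metrics `rho Q = Q - ε H`, `B = ε H Q⁻¹`, `m = Q + τ h`, `Y = τ h m⁻¹`. Matrices act on
rows. All goals of `Helper10/SP` and `Helper95/Lin`, the goals of `Helper15/HS/GoalsC.lean` and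
`Helper95/HS/GoalsA.lean`, `GoalsB.lean` may be used as hypotheses. `A ≤ B` below: `B - A` is positive
semidefinite. For positive semidefinite `X` one may write `X j i = ∑ a, conj (u_a j) * u_a i` (rows `u_a`), then
`crvP h X X' x = ∑ a b, R(u_a, u_a, v_b, v_b)`, `R(u, u', v, v') := ∑ crv h x i j k l u_i conj(u'_j) v_k conj(v'_l)`.
-/

open Complex Metric Set Filter Topology MeasureTheory
open scoped ContDiff ComplexConjugate ComplexOrder Manifold Matrix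

namespace Pool.Agent.Helper15.GS

open Pool.Agent.Helper95.Lin Pool.Agent.Helper16.Abund Pool.Agent.Helper92.Orb
  Pool.Agent.Helper10.SP Pool.Agent.Helper95.RK Pool.Agent.Helper57.HS
  Pool.Agent.Helper15.HS

universe u v

/-! ## 1. Curvature -/

/-- GSNC. The criterion with vector fields. USES: WIRT, LMF, MCAL (and see `HNEGH`, Helper10/HS/GoalsL).
PROOF. Fix `x ∈ W`, `u`. `Γ_k := Gam h k x`. Let `σ y := u - (1/2) ∑ k, (y k - x k) • (u ᵥ* Γ_k)` (affine). `f := sqT h σ`,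
`(f : ℂ) = ∑ h_ij σ_i conj(σ_j)` (real). `cd k σ_j = - ∑ i, u_i (Γ_k) i j`, `cdb k σ_j = 0`. With `cd k h = Γ_k h`, `cdb l h = h Γ_lᴴ`:
`cd k (cdb l f) x = σ (cd k cdb l h) σᴴ + (cd k σ)(cdb l h) σᴴ + σ (cd k h)(cd l σ)ᴴ + (cd k σ) h (cd l σ)ᴴ = u (cd k cdb l h - Γ_k h Γ_lᴴ) uᴴ =
- ∑ i j, crv h x i j k l u_i conj(u_j)`. `LMF`: `lev f x e = ∑ k l, LM f x k l e_k conj(e_l)`, so `0 ≤ lev f x e` is the claim (`e = v`). -/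
def S_GSNC : Prop := ∀ {n : ℕ} (W : Set (Cn n)), IsOpen W →
  ∀ h : Cn n → Matrix (Fin n) (Fin n) ℂ, (∀ x ∈ W, (h x).PosDef) →
  (∀ i j, ContDiffOn ℝ ∞ (fun x => h x i j) W) →
  (∀ σ : Cn n → Cn n, Differentiable ℂ σ → ∀ x ∈ W, ∀ e,
    0 ≤ lev (Pool.Agent.Helper15.RK.sqT h σ) x e) → GSN h W

/-- GRBC. Consequences of Griffiths seminegativity. USES: LMF, MCAL, CSY.
PROOF. (1) `crvP h X X' x = ∑ a b, R(u_a, u_a, v_b, v_b)`, all real parts `≤ 0`; `X = X'` is `RBC`. (2) `LM (ld h) x k l = cdb l (cd k (ld h)) =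
cdb l (tr (Gam h k)) = tr (cdbM l (Gam h k) x)` (`MCAL`) and `cdbM l (Gam h k) * h = - crv` (`CSY`, first item). (3) `rho h x` is Hermitian (`LMF`)
and `∑ k l, rho h x k l v_k conj(v_l) = - crvP h (h x)⁻¹ X' x` for the rank one matrix `X'` of `v`, its real part is `≥ 0` by (1). -/
def S_GRBC : Prop := ∀ {n : ℕ} (W : Set (Cn n)), IsOpen W →
  ∀ h : Cn n → Matrix (Fin n) (Fin n) ℂ, (∀ x ∈ W, (h x).PosDef) →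
  (∀ i j, ContDiffOn ℝ ∞ (fun x => h x i j) W) → GSN h W → RBC h W ∧ ∀ x ∈ W,
  (∀ X X' : Matrix (Fin n) (Fin n) ℂ, X.PosSemidef → X'.PosSemidef → (crvP h X X' x).re ≤ 0) ∧
  (∀ k l, rho h x k l = - ∑ i, ∑ j, (h x)⁻¹ j i * crv h x i j k l) ∧ (rho h x).PosSemidef

/-- CMPG. Comparison of `H` and `h`. USES: ARRB, DETI, RHB.
PROOF. `KEt T R H` gives `HerT T R H`. `RHB` for `H`, `Y = h`: `K H - h ≥ 0`, put `c := 1/K`. `RHB` for `h`, `Y = H`: `C`. -/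
def S_CMPG : Prop := ∀ {n : ℕ} (T : Set (Cn n)) {G : Type u} [Group G]
  (R : G → Cn n → Cn n → Prop) (H h : Cn n → Matrix (Fin n) (Fin n) ℂ), KEt T R H →
  HerT T R h → ∃ c C : ℝ, Cmp c C T H h

/-- GUB. The uniform bound. USES: UB, GRBC.
PROOF. `UB` for `Q`, `h` (in the place of `H`), `η := ε H`, and the constant `ε c`: `tr (h Q⁻¹) ≤ n/(ε c)`. `tr ((C h - H) Q⁻¹) ≥ 0`. -/
def S_GUB : Prop := ∀ {n : ℕ} (T : Set (Cn n)) {G : Type u} [Group G]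
  (R : G → Cn n → Cn n → Prop) (H h : Cn n → Matrix (Fin n) (Fin n) ℂ), GDat T R H h →
  ∀ c C : ℝ, Cmp c C T H h → ∀ (ε : ℝ) (Q : Cn n → Matrix (Fin n) (Fin n) ℂ), 0 < ε →
  TKE T R H ε Q → ∀ x ∈ T, (Matrix.trace (h x * (Q x)⁻¹)).re ≤ n / (ε * c) ∧
  (Matrix.trace (Bep ε H Q x)).re ≤ n * C / c

/-- GEX. Existence of the twisted Kähler–Einstein metrics. USES: `S_AYG` (Helper57/HS/DefsB), CMPG, GUB, RHB,
RHOI, DETI, KETP.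
PROOF. If `X` is a `KEt` metric, `Q'` a `KEt` metric, `AYG` with `f = 0` gives `u` with `Q'' := X + LM u` a metric, `det Q'' = e^u det Q'`, so
`ld Q'' = u + ld Q'` and `rho Q'' = LM u + rho Q' = Q'' - X + rho Q'` on `T` (*). (1) `RHB` for `rho H` (`RHOI`): `K H + rho H ≥ 0`; for `ε ≥ K + 1`
the field `X := ε H + rho H ≥ H` is a `KEt` metric; (*) with `Q' = H`: `rho Q'' = Q'' - ε H`. (2) If `TKE T R H ε Q` and `q := c/(2 (n C + c))`,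
`(1 - q) ε ≤ ε' ≤ ε`: `ε H ≤ tr (ε H Q⁻¹) Q ≤ (n C/c) Q` (`GUB`), so `(ε - ε') H ≤ q ε H ≤ (1/2) Q` and `X := Q - (ε - ε') H` is a `KEt` metric; (*) with
`Q' = Q`: `rho Q'' = Q'' - X + Q - ε H = Q'' - ε' H`. (3) Induction on `m`: the claim holds for all `ε ≥ (1 - q)^m (K + 1)`. -/
def S_GEX : Prop := ∀ {n : ℕ} (T : Set (Cn n)) {G : Type u} [Group G]
  (R : G → Cn n → Cn n → Prop) (H h : Cn n → Matrix (Fin n) (Fin n) ℂ), GDat T R H h →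
  ∀ ε : ℝ, 0 < ε → ∃ Q, TKE T R H ε Q

/-! ## 2. The logarithm of the determinant of `1 + τ Q⁻¹ h` -/

/-- LDI. The Laplacian of `log det (Q + τ h) - log det Q`. USES: WIRT, LMF, MCAL, CSY.
PROOF. `a := Q`, `b := τ h`, `m := a + b`, `Γ := Gam h k = Gam b k`, `Gam a k = Γ_k + A_k`, `A_k = Adf h Q k`. (1) `(cdM k m) m⁻¹ = Γ_k + A_k (1 - Y)`,
`1 - Y = Q m⁻¹`; `cdbM l m = m (Γ_l + A_l (1 - Y))ᴴ`; so `cdbM l Y = b Γ_lᴴ m⁻¹ - b m⁻¹ (cdbM l m) m⁻¹ = - b (A_l (1-Y))ᴴ m⁻¹ = - b m⁻¹ Q A_lᴴ m⁻¹`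
(`(1-Y)ᴴ = m⁻¹ Q`). (2) Write `C(X) k l := - cdM k (cdbM l X) + (cdM k X) X⁻¹ (cdbM l X)` (`= crv X`, as a matrix in `i, j`). With
`cdM k a + cdM k b = Γ_k m + A_k a`, `cdbM l a + cdbM l b = m Γ_lᴴ + a A_lᴴ`: `C(m) = C(a) + C(b) - (Γ+A) a (Γ+A)ᴴ - Γ b Γᴴ + (Γ m + A a) m⁻¹
(m Γᴴ + a Aᴴ) = C(a) + C(b) - A_k (a - a m⁻¹ a) A_lᴴ`, and `a - a m⁻¹ a = a m⁻¹ b`. `C(b) = τ crv h`. (3) `LM (ld m) k l = - tr (C(m) m⁻¹)` (as in `GRBC` (2)).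
With `K = Q⁻¹`: `∑ K l k C(a) k l = - rho Q = - (Q - η)` (`CSY`, last item). So `trL Q (ld m) = tr ((Q - η) m⁻¹) - τ crvP h m⁻¹ K + ∑ K l k tr (A_k (Q m⁻¹ τ h) A_lᴴ m⁻¹)`
and `tr (Q m⁻¹) = n - tr Y`. (4) `trL Q (ld Q) = tr (K (Q - η)) = n - tr (η K)`. -/
def S_LDI : Prop := ∀ {n : ℕ} (W : Set (Cn n)), IsOpen W →
  ∀ (Q h η : Cn n → Matrix (Fin n) (Fin n) ℂ) (τ : ℝ), 0 < τ → CHF Q W →
  (∀ x ∈ W, (Q x).PosDef) → (∀ x ∈ W, rho Q x = Q x - η x) →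
  (∀ i j, ContDiffOn ℝ ∞ (fun x => h x i j) W) → (∀ x ∈ W, (h x).PosDef) → ∀ x ∈ W,
  (∀ l, cdbM l (YS τ h Q) x =
    - (YS τ h Q x * Q x * (Adf h Q l x)ᴴ * (mS τ h Q x)⁻¹)) ∧
  ContDiffOn ℝ ∞ (fun y => ld (mS τ h Q) y - ld Q y) W ∧
  (trL Q (fun y => ld (mS τ h Q) y - ld Q y) x).re =
    - (Matrix.trace (YS τ h Q x)).re + (Matrix.trace (η x * (Q x)⁻¹)).re -
      (Matrix.trace (η x * (mS τ h Q x)⁻¹)).re + Er1 τ h Q x + Er2 τ h Q x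

/-- GDB. Bounds for `Y` and `∂̄Y`. USES: MCAL, LDI (first item; `η := Q - rho Q`).
PROOF. At `x` choose an invertible `S` with `h = S Sᴴ`, `Q = S diag(q) Sᴴ` (`q_i > 0`), `y_i := τ/(q_i + τ)`, `Y = S diag(y) S⁻¹`, `Â_l := S⁻¹ A_l S`. `‖S‖_F² = tr h`,
`‖S⁻¹‖_F² = tr h⁻¹` are bounded on `C`. (2) `Er1 = ∑ i j, y_i (1 - y_j) ∑ k l, K l k (Â_k)_ij conj((Â_l)_ij)` (`Q m⁻¹ τ h = S diag (q y) Sᴴ`, `q_j y_j/(q_i + τ) =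
y_i (1 - y_j)`). With `t := tr (Q h⁻¹) = ∑ q_i`: `Q ≤ t h`, so `K ≥ t⁻¹ h⁻¹ ≥ t⁻¹ c₀` (`h⁻¹ ≥ c₀` on `C`), so `Er1 ≥ (c₀/t) ∑ i j, y_i (1 - y_j) ∑ l |(Â_l)_ij|²`.
(3) `cdbM l Y = - S M_l S⁻¹`, `(M_l)_ij = y_i q_i conj((Â_l)_ji)/(q_j + τ) = (1 - y_i) y_j conj((Â_l)_ji)` and `(1 - y_i)² y_j² ≤ (1 - y_i) y_j`. (`n = 0` trivial.) -/
def S_GDB : Prop := ∀ {n : ℕ} (T : Set (Cn n)) {G : Type u} [Group G]
  (R : G → Cn n → Cn n → Prop) (h : Cn n → Matrix (Fin n) (Fin n) ℂ), HerT T R h → ∀ C ⊆ T,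
  IsCompact C → ∃ K : ℝ, 0 < K ∧ ∀ (τ : ℝ) (Q : Cn n → Matrix (Fin n) (Fin n) ℂ), 0 < τ →
  KEt T R Q → ∀ x ∈ C, (∀ a c, ‖YS τ h Q x a c‖ ≤ K) ∧ 0 ≤ Er1 τ h Q x ∧
  ∑ l, ∑ a, ∑ c, ‖cdb l (fun y => YS τ h Q y a c) x‖ ^ 2 ≤
    K * (Matrix.trace (Q x * (h x)⁻¹)).re * Er1 τ h Q x

/-- INVG. Regularity and invariance. USES: WIRT, WCH, ARRB, DETI, MCAL, CSY, IFN, RHOI, INVK.
PROOF. `mS τ h Q` is an invariant Hermitian metric. Smoothness and continuity from `MCAL`. `Y h = τ h m⁻¹ h` is Hermitian, `h - Y h = h m⁻¹ Q =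
(m⁻¹ + τ Q⁻¹ h m⁻¹)⁻¹`-like: with `S` as in `GDB`, `Y h = S diag(y) Sᴴ`, `0 ≤ y ≤ 1`. Invariance as in the proof of `INVK`: for an arrow with `J`:
`X x = J X(τ x) Jᴴ` for `X = h, Q, m`, so `Y x = J Y(y) J⁻¹` (`IFN`), `A_k = ∑ p, J k p • J A_p(y) J⁻¹`, `crv h x i j k l = ∑ J i a conj(J j b) J k c conj (J l d) crv h y
a b c d`, `Q⁻¹ x = J⁻ᴴ Q⁻¹(y) J⁻¹`. The last items: `IFN` and `RHOI`. -/
def S_INVG : Prop := ∀ {n : ℕ} (T : Set (Cn n)) {G : Type u} [Group G]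
  (R : G → Cn n → Cn n → Prop), Et T R → ∀ (h Q : Cn n → Matrix (Fin n) (Fin n) ℂ) (τ : ℝ),
  0 < τ → HerT T R h → HerT T R Q → HerT T R (mS τ h Q) ∧
  (∀ i j, ContDiffOn ℝ ∞ (fun x => YS τ h Q x i j) T) ∧
  (∀ x ∈ T, YS τ h Q x * h x = h x * (YS τ h Q x)ᴴ ∧ (YS τ h Q x * h x).PosSemidef ∧
    (h x - YS τ h Q x * h x).PosSemidef) ∧ (InvH R fun x => YS τ h Q x * h x) ∧
  ContinuousOn (Er1 τ h Q) T ∧ ContinuousOn (Er2 τ h Q) T ∧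
  (∀ γ x y, R γ x y → Er1 τ h Q y = Er1 τ h Q x ∧ Er2 τ h Q y = Er2 τ h Q x ∧
    Matrix.trace (YS τ h Q y) = Matrix.trace (YS τ h Q x) ∧
    Matrix.trace (Sqd (YS τ h Q y)) = Matrix.trace (Sqd (YS τ h Q x)) ∧
    Matrix.trace (rho h y * (h y)⁻¹ * YS τ h Q y) =
      Matrix.trace (rho h x * (h x)⁻¹ * YS τ h Q x)) ∧
  InvF T R fun x => ld (mS τ h Q) x - ld Q x

/-- LAG. Pointwise linear algebra.
PROOF. `h = S Sᴴ`, `Q = S diag(q) Sᴴ`, `lam_i := 1/q_i` in decreasing order, `y_i = τ lam_i/(1 + τ lam_i) ∈ [0, 1]`, `tr Y = ∑ y_i`. (1) `H ≤ C h`: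
`tr (H m⁻¹) ≤ C tr (h m⁻¹) = C tr Y/τ ≤ C n/τ`. (2) For `s > 0`, `s' := s c ε`: `det (1 + s' h Q⁻¹) = det (Q + s' h)/det Q ≤ det (Q + (s'/c) H)/det Q =
det (1 + s B) =: D` (`h ≤ H/c`, monotonicity of the determinant). For `j > k`: `μ := c ε lam_j`, `(s μ)^(k+1) ≤ ∏_{i ≤ k+1} (1 + s' lam_i) ≤ D` and `μ ≤ δ +
μ^(k+1)/δ^k ≤ δ + D/(δ^k s^(k+1))`. So `ell := ∑_{j > k} y_j ≤ ∑_{j > k} τ lam_j ≤ τ/(ε c) * n (δ + D/(δ^k s^(k+1))) =: r`. (3) `tr Y = ∑_{i ≤ k} y_i + ell ≤ k + r`;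
`tr Sqd = ∑ (y² - y)² ≤ ∑ y (1 - y) ≤ ∑_{i ≤ k} (1 - y_i) + ell = k - tr Y + 2 ell`; `|tr Y - k| ≤ ∑_{i ≤ k} (1 - y_i) + ell` and `|tr Y - k| ≤ n`. -/
def S_LAG : Prop := ∀ {n : ℕ} (k : ℕ) (H h Q B Y : Matrix (Fin n) (Fin n) ℂ) (c C ε τ : ℝ),
  k ≤ n → H.PosDef → h.PosDef → Q.PosDef → 0 < c → 0 < C → 0 < ε → 0 < τ →
  (H - (c : ℂ) • h).PosSemidef → ((C : ℂ) • h - H).PosSemidef → B = (ε : ℂ) • (H * Q⁻¹) →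
  Y = (τ : ℂ) • (h * (Q + (τ : ℂ) • h)⁻¹) →
  (0 ≤ (Matrix.trace Y).re ∧ (Matrix.trace Y).re ≤ n ∧ 0 ≤ (Matrix.trace (Sqd Y)).re ∧
    0 ≤ (Matrix.trace (((ε : ℂ) • H) * (Q + (τ : ℂ) • h)⁻¹)).re ∧
    (Matrix.trace (((ε : ℂ) • H) * (Q + (τ : ℂ) • h)⁻¹)).re ≤ C * n * (ε / τ)) ∧
  ∀ δ s : ℝ, 0 < δ → 0 < s → ∀ r : ℝ, r = τ / (ε * c) *
      (n * (δ + (1 + (s : ℂ) • B).det.re / (δ ^ k * s ^ (k + 1)))) →
    (Matrix.trace Y).re ≤ k + r ∧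
    (Matrix.trace (Sqd Y)).re ≤ k - (Matrix.trace Y).re + 2 * r ∧
    ((Matrix.trace Y).re - k) ^ 2 ≤ n * (k - (Matrix.trace Y).re + 2 * r)

/-- GTR. Averages of `B`. USES: DETI, RHOI, VOLP, TRC.
PROOF. `itg 1 = V(ε) = ε^k p(ε)`, `itg (det (1 + s B)) = ∫ κ det (Q + s ε H) = V(ε (1 + s)) = (ε (1 + s))^k p(ε (1 + s))` (`VOLP` (1)), so the average is
`(1 + s)^k p(ε (1+s))/p(ε) → (1 + s)^k` for `ε → 0`, uniformly in `Q` (it depends only on `ε`). For `0 < t ≤ 1/(|Λ| + 1)`: `1 + t tr B ≤ det (1 + t B) ≤ 1 + t tr B +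
t² Λ²` (`TRC` with `Y = ε H`; `0 ≤ tr B ≤ Λ`). So with `a(t) := avE det (1 + t B)`: `(a(t) - 1)/t - t Λ² ≤ avE tr B ≤ (a(t) - 1)/t`, `a(t) → (1 + t)^k`;
choose first `t` (`((1+t)^k - 1)/t` is near `k`), then `ε₀`. -/
def S_GTR : Prop := ∀ {n : ℕ} (T : Set (Cn n)) {G : Type u} [Group G]
  (R : G → Cn n → Cn n → Prop) (H : Cn n → Matrix (Fin n) (Fin n) ℂ), KEt T R H →
  ∀ κ, IsPUE T R κ → (∀ ε : ℝ, 0 < ε → ∃ Q, TKE T R H ε Q) → ∀ (k : ℕ) (p : Polynomial ℝ),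
  0 < p.eval 0 → (∀ s : ℝ, VolP T κ H s = s ^ k * p.eval s) → ∀ Λ : ℝ,
  (∀ (ε : ℝ) (Q : Cn n → Matrix (Fin n) (Fin n) ℂ), 0 < ε → TKE T R H ε Q →
    ∀ x ∈ T, (Matrix.trace (Bep ε H Q x)).re ≤ Λ) → ∀ η : ℝ, 0 < η → ∀ s : ℝ, 0 ≤ s →
  ∃ ε₀ > 0, ∀ (ε : ℝ) (Q : Cn n → Matrix (Fin n) (Fin n) ℂ), 0 < ε → ε ≤ ε₀ → TKE T R H ε Q →
    0 < itg T κ Q (fun _ => 1) ∧
    |avE T κ Q (fun x => (Matrix.trace (Bep ε H Q x)).re) - k| ≤ η ∧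
    avE T κ Q (fun x => (1 + (s : ℂ) • Bep ε H Q x).det.re) ≤ (1 + s) ^ k + η

/-- GCON. The sequences. USES: DETI, CMPG, GUB, RHOI, GRBC, TRI, LDI, GDB, INVG, LAG, GTR.
PROOF. `c, C` (`CMPG`), `Λ := n C/c` (`GUB`). For `j`: `N := j + 1`, `δ := N^(-2)`, `s > 0` with `(1 + s)^k + 1 ≤ δ^(k+1) s^(k+1)`, `η := 1/N`; `ε₀` from `GTR`, `ε_j :=
min (ε₀, N^(-2))`, `Q_j` a metric for `ε_j`, `τ_j := N ε_j`. All functions below are continuous on `T` (`INVG`), so the averages are linear and monotone.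
`r` as in `LAG` (a function of `x`): `E[r] ≤ (N/c) n (δ + ((1+s)^k + η)/(δ^k s^(k+1))) ≤ (N/c) n 2 δ = 2 n/(c N)`. `g := tr (ε H m⁻¹) ∈ [0, C n/N]` (`LAG`).
`LDI` with `η = ε H` and `∫ κ det Q trL Q D = 0`, `D := ld m - ld Q` (`InvF` by `INVG`; `TRI` (2)): `E[Er1] + E[Er2] = E[tr Y] - E[tr B] + E[g] ≤ k + 2n/(cN) - (k - 1/N) +
C n/N → 0`, both terms `≥ 0` (`GDB`, `GRBC`). So also `E[tr Y] ≥ E[tr B] - E[g] ≥ k - (1 + C n)/N` and `E[tr Sqd Y]`, `(1/n) E[(tr Y - k)²] ≤ k - E[tr Y] + 2 E[r] → 0`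
(`n = 0` trivial). Last: `θ := rho h ≥ 0` (`GRBC`), `h⁻¹ Y = τ m⁻¹ ≤ τ Q⁻¹`: `0 ≤ tr (θ h⁻¹ Y) ≤ τ tr (θ Q⁻¹)`; `θ = rho Q - LM (ld Q - ld h)` (`RHOI`) so
`E[tr (θ Q⁻¹)] = n - E[tr B] ≤ n` (`TRI` (2)), and `τ_j n ≤ n/N`. -/
def S_GCON : Prop := ∀ {n : ℕ} (T : Set (Cn n)) {G : Type u} [Group G]
  (R : G → Cn n → Cn n → Prop) (H h : Cn n → Matrix (Fin n) (Fin n) ℂ), GDat T R H h →
  ∀ κ, IsPUE T R κ → (∀ ε : ℝ, 0 < ε → ∃ Q, TKE T R H ε Q) → ∀ (k : ℕ) (p : Polynomial ℝ),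
  k ≤ n → 0 < p.eval 0 → (∀ s : ℝ, VolP T κ H s = s ^ k * p.eval s) →
  ∃ (ε τ : ℕ → ℝ) (Q : ℕ → Cn n → Matrix (Fin n) (Fin n) ℂ), SeqG k T R H h κ ε τ Q

/-- GDZ. Weighted convergence of `∂̄Y` and of the curvature. USES: DETI, CMPG, GDB, QPD, AVC, INVG,
GRBC (and `INVK`: `crv h` is continuous).
PROOF. `w := dens k ε_j H Q_j ≤ e^K` (`QPD`), `t := tr (Q h⁻¹) ≤ C tr (Q H⁻¹)` (`H ≤ C h`), so `∫_C w t` is bounded (`QPD`). `AVC`: `∫_C w Er1 → 0`, `∫_C w Er2 → 0`.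
(1) `GDB` and Cauchy–Schwarz: `(∫_C w ‖cdb_l Y_ac‖)² ≤ K (∫_C w t)(∫_C w Er1)`. (2) `X := h⁻¹ Y = τ m⁻¹ ≥ 0`, `Er2 = - crvP h X Q⁻¹`, `Q ≤ t h` so `Q⁻¹ ≥ t⁻¹ h⁻¹` and
`f := - crvP h X h⁻¹ ≤ t Er2` (`GRBC` (1)), `0 ≤ f ≤ B` on `C`: `∫_C w f ≤ √B (∫_C w t)^(1/2) (∫_C w Er2)^(1/2)`. (`n = 0` trivial.) -/
def S_GDZ : Prop := ∀ {n : ℕ} (T : Set (Cn n)) {G : Type u} [Group G]
  (R : G → Cn n → Cn n → Prop) (H h : Cn n → Matrix (Fin n) (Fin n) ℂ), GDat T R H h →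
  ∀ κ, IsPUE T R κ → (∀ ε : ℝ, 0 < ε → ∃ Q, TKE T R H ε Q) → ∀ (k : ℕ) (p : Polynomial ℝ),
  0 < p.eval 0 → (∀ s : ℝ, VolP T κ H s = s ^ k * p.eval s) →
  ∀ (ε τ : ℕ → ℝ) (Q : ℕ → Cn n → Matrix (Fin n) (Fin n) ℂ), SeqG k T R H h κ ε τ Q →
  ∀ C ⊆ T, IsCompact C → (∀ l a c, Tendsto (fun j => ∫ x in C, dens k (ε j) H (Q j) x *
      ‖cdb l (fun y => YS (τ j) h (Q j) y a c) x‖) atTop (𝓝 0)) ∧
    Tendsto (fun j => ∫ x in C, dens k (ε j) H (Q j) x *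
      (- (crvP h ((h x)⁻¹ * YS (τ j) h (Q j) x) (h x)⁻¹ x).re)) atTop (𝓝 0)

/-! ## 3. The limit -/

/-- LPG. Algebraic properties of the limit. USES: ARRB, IFN (see the proof of `LPR`, HS GoalsC, same arguments).
PROOF. (0) If a continuous function `F ≥ 0` on `T` satisfies `∫_C w_j F → 0` for all compact `C` then `F = 0` (`low`). (1) `∑ ‖(Z² - Z) a c‖² ≤ const
tr (Sqd Z)` on `C` (`Z` is similar to a Hermitian matrix by `S`, `h = S Sᴴ`), Cauchy–Schwarz: `∫_C w_j ‖Z² - Z‖ → 0`, so `∫_C w_j ‖P² - P‖ → 0`. (2) The trace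
the same. (3) `Z h = h Zᴴ`. (4) `InvH`: for a local arrow on `U`, closed balls `C ⊆ U`, change of variables. (5) `|tr (a Z) - tr (a P)| ≤ const ∑ ‖Z a c - P a c‖` on `C`,
so `∫_C w_j |(tr (a P)).re| → 0` (using `tr (a Z) ≥ 0`, `∫_C w_j tr (a Z) → 0`). -/
def S_LPG : Prop := ∀ {n : ℕ} (T : Set (Cn n)) {G : Type u} [Group G]
  (R : G → Cn n → Cn n → Prop), Et T R → ∀ h, HerT T R h → ∀ w, WtS T R w → ∀ (k : ℕ)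
  (Z : ℕ → Cn n → Matrix (Fin n) (Fin n) ℂ) (P : Cn n → Matrix (Fin n) (Fin n) ℂ),
  (∀ j a c, ContinuousOn (fun x => Z j x a c) T) →
  (∀ C ⊆ T, IsCompact C → ∃ B : ℝ, ∀ j, ∀ x ∈ C, ∀ a c, ‖Z j x a c‖ ≤ B) →
  (∀ j, ∀ x ∈ T, Z j x * h x = h x * (Z j x)ᴴ) → (∀ j, InvH R fun x => Z j x * h x) →
  (∀ i j, DifferentiableOn ℂ (fun x => P x i j) T) →
  (∀ C ⊆ T, IsCompact C → ∀ a c, Tendsto (fun j => ∫ x in C, w j x *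
    ‖Z j x a c - P x a c‖) atTop (𝓝 0)) →
  (∀ C ⊆ T, IsCompact C → Tendsto (fun j => ∫ x in C, w j x *
    (Matrix.trace (Sqd (Z j x))).re) atTop (𝓝 0)) →
  (∀ C ⊆ T, IsCompact C → Tendsto (fun j => ∫ x in C, w j x *
    ((Matrix.trace (Z j x)).re - k) ^ 2) atTop (𝓝 0)) →
  (∀ x ∈ T, P x * P x = P x) ∧ (∀ x ∈ T, Matrix.trace (P x) = k) ∧
  (∀ x ∈ T, P x * h x = h x * (P x)ᴴ) ∧ (InvH R fun x => P x * h x) ∧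
  ∀ a : Cn n → Matrix (Fin n) (Fin n) ℂ, (∀ i j, ContinuousOn (fun x => a x i j) T) →
    (∀ j, ∀ x ∈ T, 0 ≤ (Matrix.trace (a x * Z j x)).re) →
    (∀ C ⊆ T, IsCompact C → Tendsto (fun j => ∫ x in C, w j x *
      (Matrix.trace (a x * Z j x)).re) atTop (𝓝 0)) →
    ∀ x ∈ T, (Matrix.trace (a x * P x)).re = 0

/-- GNL. The image of `P` is in the nullity. USES: CSY (conjugate symmetry; first and second item hold for Hermitian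
metrics).
PROOF. `h⁻¹ P = (h⁻¹ P) h (h⁻¹ P)ᴴ ≥ 0` (`P h = P h Pᴴ`, `Pᴴ h⁻¹ = h⁻¹ P`), `h⁻¹ P = ∑ conj(f_a) ⊗ f_a`, `h⁻¹ = ∑ conj(e_b) ⊗ e_b`; so `∑ a b, R(f_a, f_a, e_b, e_b) = 0` with all
terms `≤ 0`: all vanish (they are real by `CSY`). For fixed `a` the form `e ↦ - R(f_a, f_a, e, e)` is `≥ 0` with trace `0` (with respect to the basis `e_b`), so it vanishes. For fixed `e`
the form `u ↦ - R(u, u, e, e)` is `≥ 0` and vanishes at `f_a`, so `R(f_a, u, e, e) = 0` for all `u`, and by polarization in `e`: `R(f_a, u, e, e') = 0`. The rows of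
`h⁻¹ P` are linear combinations of the `f_a`, so are the rows of `P = h (h⁻¹ P)`. -/
def S_GNL : Prop := ∀ {n : ℕ} (W : Set (Cn n)), IsOpen W →
  ∀ h : Cn n → Matrix (Fin n) (Fin n) ℂ, (∀ x ∈ W, (h x).PosDef) →
  (∀ i j, ContDiffOn ℝ ∞ (fun x => h x i j) W) → GSN h W → ∀ x ∈ W,
  ∀ P : Matrix (Fin n) (Fin n) ℂ, P * P = P → P * h x = h x * Pᴴ →
  (crvP h ((h x)⁻¹ * P) (h x)⁻¹ x).re = 0 → ∀ i j l m, ∑ p, P i p * crv h x p j l m = 0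

/-- GTH. Pointwise.
PROOF. `h⁻¹ P = z zᴴ` (see `GNL`), `θ = t tᴴ`: `tr (θ h⁻¹ P) = tr ((tᴴ z)(tᴴ z)ᴴ) = 0`, so `tᴴ z = 0`, `zᴴ t = 0`, `h⁻¹ P θ = z zᴴ t tᴴ = 0`. -/
def S_GTH : Prop := ∀ {n : ℕ} (h θ P : Matrix (Fin n) (Fin n) ℂ), h.PosDef → θ.PosSemidef →
  P * P = P → P * h = h * Pᴴ → (Matrix.trace (θ * h⁻¹ * P)).re = 0 → P * θ = 0

/-- GCLO. The form `P h` is closed. USES: WIRT, MCAL, CSY, PARP, `S_ST2A` and `S_POSK` of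
`Helper15/RK/GoalsF.lean` (both proved), PUE, DETI.
PROOF. `β := P h`, Hermitian, smooth. `PARP`: `cdM k β = Γ_k β`, `Γ = Gam h`, so `cdbM l β = β Γ_lᴴ`. `(cdbM i Γ_j) β = (cdbM i Γ_j) P h = P (cdbM i Γ_j) h = 0` by `PARP` (last
item), `CSY` and `null`. So `cd i (cdb j β) = cdM i (β Γ_jᴴ) = Γ_i β Γ_jᴴ + β (cdbM i Γ_j)ᴴ = Γ_i β Γ_jᴴ`. Put `X i j m l := (Γ_i β Γ_jᴴ) m l = ∑ a b, (Γ_i)_ma β_ab
conj((Γ_j)_lb)`, `K := H⁻¹`, `T i m a := (Γ_i)_ma - (Γ_m)_ia`. Relabelling the sums: `E2 H β = det H ∑ (K j i K l m - K l i K j m) X i j m l = (det H/2) ∑ K j i K l m (X i j m l -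
X i l m j - X m j i l + X m l i j) = (det H/2) ∑ K j i K l m β_ab T i m a conj(T j l b) ≥ 0` (`K = Sᴴ S`, `β = b bᴴ`: it is `(det H/2) ∑_{c, c', d} |∑ S c i S c' m b a d T i m a|²`).
`E2 H β` is continuous, an invariant density (`ST2A`) with integral `0` (`ST2A`): it vanishes (`POSK`). So `∑ a, T i m a b a d = 0` (`S` invertible), `∑ a, T i m a β_ab = 0`,
i.e. `(Γ_i β)_mb = (Γ_m β)_ib`, i.e. `cd i β_mb = cd m β_ib`. -/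
def S_GCLO : Prop := ∀ {n : ℕ} (T : Set (Cn n)) {G : Type u} [Group G]
  (R : G → Cn n → Cn n → Prop) (H h : Cn n → Matrix (Fin n) (Fin n) ℂ), GDat T R H h →
  ∀ P : Cn n → Matrix (Fin n) (Fin n) ℂ, (∀ i j, DifferentiableOn ℂ (fun x => P x i j) T) →
  (∀ x ∈ T, P x * P x = P x) → (∀ x ∈ T, P x * h x = h x * (P x)ᴴ) →
  (InvH R fun x => P x * h x) → (∀ x ∈ T, ∀ i j l m, ∑ p, P x i p * crv h x p j l m = 0) →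
  CHF (fun x => P x * h x) T

/-- RKD. Pointwise: if `θ + P h` is degenerate then `det (θ + s H) = O(s^(k+1))`.
PROOF. `β := P h = P h Pᴴ ≥ 0`. Let `v ≠ 0` be a row with `v (θ + β) vᴴ = 0`, so `v θ = 0`, `v β = 0`. The rows `f = f P` (a space `F` of dimension `k = tr P`) satisfy `f θ =
f P θ = 0`; `v ∉ F` because `f β fᴴ = f h fᴴ > 0` for `0 ≠ f ∈ F`. So the left kernel of `θ` has dimension `≥ k + 1`. With `H = S Sᴴ`, `S⁻¹ θ S⁻ᴴ` is positive semidefinite with eigenvalues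
`μ_i ≥ 0`, at least `k + 1` of them `0`, `∑ μ_i = tr (θ H⁻¹)`: `det (θ + s H) = det H ∏ (s + μ_i) ≤ det H s^(k+1) (1 + tr (θ H⁻¹))^n`. -/
def S_RKD : Prop := ∀ {n : ℕ} (k : ℕ) (H h θ P : Matrix (Fin n) (Fin n) ℂ), H.PosDef →
  h.PosDef → θ.PosSemidef → P * P = P → P * h = h * Pᴴ → Matrix.trace P = k → P * θ = 0 →
  (0 ≤ (θ + P * h).det.re ∧ (P * h).PosSemidef) ∧
  ((θ + P * h).det.re = 0 → ∀ s : ℝ, 0 < s → s ≤ 1 → 0 ≤ (θ + (s : ℂ) • H).det.re ∧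
    (θ + (s : ℂ) • H).det.re ≤ s ^ (k + 1) * (H.det.re * (1 + (Matrix.trace (θ * H⁻¹)).re) ^ n))

/-- GVOL. The total volume. USES: DETI, ARRB, RHOI, MOMG, GRBC, RKD, POSK.
PROOF. `θ := rho h ≥ 0` (`GRBC`), `F := det (θ + P h).re ≥ 0` (`RKD`), smooth, an invariant density (`InvH`: `X x = J X(τ x) Jᴴ`). If `∫ κ F ≤ 0` then it is `0` and `F = 0` on `T`
(`POSK`). `MOMG` with `Z = rho H + s H`, `u = ld h - ld H` (`RHOI`: `rho h = rho H + LM u`): `s^k p(s) = V(s) = ∫ κ det (θ + s H)`. By `RKD` for `0 < s ≤ 1` this is `≤ s^(k+1) B`,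
`B := ∫ κ det H (1 + tr (θ H⁻¹))^n`. So `p(s) ≤ B s`, `s → 0`: `p(0) ≤ 0`, a contradiction. -/
def S_GVOL : Prop := ∀ {n : ℕ} (T : Set (Cn n)) {G : Type u} [Group G]
  (R : G → Cn n → Cn n → Prop) (H h : Cn n → Matrix (Fin n) (Fin n) ℂ), GDat T R H h →
  ∀ κ, IsPUE T R κ → ∀ (k : ℕ) (p : Polynomial ℝ), 0 < p.eval 0 →
  (∀ s : ℝ, VolP T κ H s = s ^ k * p.eval s) → ∀ P : Cn n → Matrix (Fin n) (Fin n) ℂ,
  (∀ i j, DifferentiableOn ℂ (fun x => P x i j) T) → (∀ x ∈ T, P x * P x = P x) →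
  (∀ x ∈ T, Matrix.trace (P x) = k) → (∀ x ∈ T, P x * h x = h x * (P x)ᴴ) →
  (InvH R fun x => P x * h x) → (∀ x ∈ T, P x * rho h x = 0) →
  0 < ∫ x in T, κ x * (rho h x + P x * h x).det.re

/-- COREG (assembly, helper15). -/
def S_COREG : Prop := ∀ {n : ℕ} (T : Set (Cn n)) {G : Type u} [Group G]
  (R : G → Cn n → Cn n → Prop) (H h : Cn n → Matrix (Fin n) (Fin n) ℂ), GDat T R H h →
  ∃ (k : ℕ) (P : Cn n → Matrix (Fin n) (Fin n) ℂ), k ≤ n ∧ ParG k T R h P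

end Pool.Agent.Helper15.GS
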