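import Pool.Agent.Helper15.GS.GoalsD

/-!
# GS, goals E: from the projector to a canonical metric with semipositive curvature of constant corank

`P` is as in `ParG`, `θ = rho h ≥ 0`, `β = P h`. The metrics `Q` of this part satisfy `rho Q = Q - β - δ H`, `δ ≥ 0`;
for `δ > 0` they exist by Aubin–Yau; the bound of `tr (h Q⁻¹)` (uniform in `δ`) gives `Q` with `rho Q = Q - β`, and
then `β Q⁻¹` is a projector. The same hypotheses as in GoalsD may be used.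
-/

open Complex Metric Set Filter Topology MeasureTheory
open scoped ContDiff ComplexConjugate ComplexOrder Manifold Matrix

namespace Pool.Agent.Helper15.GS

open Pool.Agent.Helper95.Lin Pool.Agent.Helper16.Abund Pool.Agent.Helper92.Orb
  Pool.Agent.Helper10.SP Pool.Agent.Helper95.RK Pool.Agent.Helper57.HS
  Pool.Agent.Helper15.HS

universe u v

/-- GPF. Facts on `P`. USES: MCAL, CSY, PARP, GRBC.
PROOF. (1) `GRBC`; `P h = P h Pᴴ`. (2) `PARP`. (3) `(cdbM m Γ_l) P h = P (cdbM m Γ_l) h` (`PARP`, last item) and `(P (cdbM m Γ_l) h) i j = - ∑ p, P i p crv h p j l m = 0`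
(`CSY`). (4) `P θ = 0`, `P (P h) = P h`. `P` is a projector of rank `k` (trace): `det (1 + t P) = (1 + t)^k` (conjugate to a diagonal matrix). (5) `1 - P` is a projector of trace
`0`. -/
def S_GPF : Prop := ∀ {n : ℕ} (T : Set (Cn n)) {G : Type u} [Group G]
  (R : G → Cn n → Cn n → Prop) (H h : Cn n → Matrix (Fin n) (Fin n) ℂ), GDat T R H h →
  ∀ (k : ℕ) (P : Cn n → Matrix (Fin n) (Fin n) ℂ), ParG k T R h P → ∀ x ∈ T,
  (rho h x).PosSemidef ∧ (P x * h x).PosSemidef ∧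
  (∀ l, cdM l (fun y => P y * h y) x = Gam h l x * (P x * h x)) ∧
  (∀ l m, cdbM m (Gam h l) x * (P x * h x) = 0) ∧
  (∀ t : ℂ, rho h x + (1 + t) • (P x * h x) = (1 + t • P x) * (rho h x + P x * h x) ∧
    (1 + t • P x).det = (1 + t) ^ k) ∧ (k = n → P x = 1)

/-- `rho Q = Q - β - δ H`. -/
def BKE {n : ℕ} (T : Set (Cn n)) {G : Type u} [Group G] (R : G → Cn n → Cn n → Prop)
    (H β : Cn n → Matrix (Fin n) (Fin n) ℂ) (δ : ℝ) (Q : Cn n → Matrix (Fin n) (Fin n) ℂ) :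
    Prop := KEt T R Q ∧ ∀ x ∈ T, rho Q x = Q x - β x - (δ : ℂ) • H x

/-- GVB. Volumes. USES: DETI, RHOI, MOMG, GPF.
PROOF. `u := ld Q - ld h` is `InvF`, `LM u = rho Q - rho h` (`RHOI`), so `Q + Z' = (rho h + β + δ H + Z') + LM u` for every closed invariant `Z'`: `MOMG`. (1) `Z' = t H`. (2) `δ = 0`,
`Z' = t β`, `rho h + (1 + t) β = (1 + t P)(rho h + β)` (`GPF`). (3) `f(s) := ∫ κ det (rho h + β + s H)` is a polynomial in `s`, nondecreasing for `s ≥ 0` (`rho h + β ≥ 0`,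
monotonicity of `det`), `V0 := f(0) > 0` (`ParG.vol`), `V1 := f(2)`. -/
def S_GVB : Prop := ∀ {n : ℕ} (T : Set (Cn n)) {G : Type u} [Group G]
  (R : G → Cn n → Cn n → Prop) (H h : Cn n → Matrix (Fin n) (Fin n) ℂ), GDat T R H h →
  ∀ (k : ℕ) (P : Cn n → Matrix (Fin n) (Fin n) ℂ), ParG k T R h P → ∀ κ, IsPUE T R κ →
  (∀ (δ : ℝ) (Q : Cn n → Matrix (Fin n) (Fin n) ℂ), BKE T R H (fun x => P x * h x) δ Q →
    ∀ t : ℝ, ∫ x in T, κ x * (Q x + (t : ℂ) • H x).det.re =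
      ∫ x in T, κ x * (rho h x + P x * h x + ((δ + t : ℝ) : ℂ) • H x).det.re) ∧
  (∀ Q : Cn n → Matrix (Fin n) (Fin n) ℂ, BKE T R H (fun x => P x * h x) 0 Q → ∀ t : ℝ,
    ∫ x in T, κ x * (Q x + (t : ℂ) • (P x * h x)).det.re =
      (1 + t) ^ k * ∫ x in T, κ x * (Q x).det.re) ∧
  ∃ V0 V1 : ℝ, 0 < V0 ∧ ∀ s : ℝ, 0 ≤ s → s ≤ 2 →
    V0 ≤ ∫ x in T, κ x * (rho h x + P x * h x + (s : ℂ) • H x).det.re ∧
    ∫ x in T, κ x * (rho h x + P x * h x + (s : ℂ) • H x).det.re ≤ V1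

/-- GB1. Existence for `δ > 0`. USES: `S_AYG`, GEX, RHOI, KETP, GPF.
PROOF. `Q'` with `rho Q' = Q' - δ H` (`GEX`). `X := Q' + β` is a `KEt` metric. `AYG` for `Q'` (in the place of `H`), `X`, `f = 0`: `Q := X + LM u`, `det Q = e^u det Q'`, `ld Q = u + ld Q'` on `T`;
`rho Q = LM u + rho Q' = Q - X + Q' - δ H = Q - β - δ H`. -/
def S_GB1 : Prop := ∀ {n : ℕ} (T : Set (Cn n)) {G : Type u} [Group G]
  (R : G → Cn n → Cn n → Prop) (H h : Cn n → Matrix (Fin n) (Fin n) ℂ), GDat T R H h →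
  ∀ (k : ℕ) (P : Cn n → Matrix (Fin n) (Fin n) ℂ), ParG k T R h P → ∀ δ : ℝ, 0 < δ →
  ∃ Q, BKE T R H (fun x => P x * h x) δ Q

/-- GLG. The differential inequality. USES: WIRT, MCAL, CL, CLG, CHN (Helper95 GoalsA), AAPS, TRI (GoalsB).
PROOF. `S > 0` is smooth and invariant (`TRI` (1)). `CL` for `h` (in the place of `H`): `trL Q S = - S + tr (η K h K) - KKt h Q + AAt h Q ≥ - S + AAt h Q` (`η ≥ 0`, `RBC`). `CLG` (1) with `Y = h`,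
`Γ = Gam h`: `cd k (tr (h K)) = - tr (A_k h K)`. `CHN` for `log`: `trL Q (log S) = (trL Q S)/S - S⁻² ∑ K l k cd k S conj(cd l S) ≥ (- S + AAt)/S - AAt/S = -1` (`AAPS` with `Y = h`). -/
def S_GLG : Prop := ∀ {n : ℕ}, 0 < n → ∀ (T : Set (Cn n)) {G : Type u} [Group G]
  (R : G → Cn n → Cn n → Prop) (h Q η : Cn n → Matrix (Fin n) (Fin n) ℂ), HerT T R h →
  RBC h T → KEt T R Q → (∀ x ∈ T, (η x).PosSemidef) → (∀ x ∈ T, rho Q x = Q x - η x) →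
  InvF T R (fun x => (Matrix.trace (h x * (Q x)⁻¹)).re) ∧
  ∀ x ∈ T, 0 < (Matrix.trace (h x * (Q x)⁻¹)).re ∧
    -1 ≤ (trL Q (fun y => Real.log (Matrix.trace (h y * (Q y)⁻¹)).re) x).re

/-- GAV. The average of the trace is bounded. USES: CMPG, GVB, TRC.
PROOF. `c h ≤ H`: `c tr (h Q⁻¹) ≤ tr (H Q⁻¹)`, `vol Q + ∫ κ det Q tr (H Q⁻¹) ≤ ∫ κ det (Q + H)` (`TRC` with `t = 1`) `= ∫ κ det (rho h + β + (δ + 1) H) ≤ V1` and `vol Q ≥ V0` (`GVB`). So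
`∫ κ det Q tr (h Q⁻¹) ≤ V1/c ≤ (V1/(c V0)) vol Q`. -/
def S_GAV : Prop := ∀ {n : ℕ} (T : Set (Cn n)) {G : Type u} [Group G]
  (R : G → Cn n → Cn n → Prop) (H h : Cn n → Matrix (Fin n) (Fin n) ℂ), GDat T R H h →
  ∀ (k : ℕ) (P : Cn n → Matrix (Fin n) (Fin n) ℂ), ParG k T R h P → ∀ κ, IsPUE T R κ →
  ∃ C : ℝ, 0 ≤ C ∧ ∀ (δ : ℝ) (Q : Cn n → Matrix (Fin n) (Fin n) ℂ), 0 < δ → δ ≤ 1 →
    BKE T R H (fun x => P x * h x) δ Q →
    ∫ x in T, κ x * (Q x).det.re * (Matrix.trace (h x * (Q x)⁻¹)).re ≤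
      C * Pool.Agent.Helper95.HS.vol T κ Q

/-- GB3. For some `δ > 0` also `Q - δ H` is a metric. USES: SBG, DENS (Helper95), PUE, CMPG, GRBC, GPF, GB1,
GLG, GAV, RHB, RHOI, KETP.
PROOF. `κ` (`PUE`), `c, C` (`CMPG`). `RHB`: `a` with `± (rho H + β) ≤ (a - 1) H`, `a ≥ 1`. For `0 < δ ≤ 1` and `BKE` `Q` put `φ := ld Q - ld H` (`InvF`), `LM φ = rho Q - rho H = Q - β - δ H - rho H`. So
`Q - LM φ = rho H + β + δ H ≤ a H` and `a H + LM φ ≥ 0`: `DENS` gives `K` (independent of `Q`) with `DensLe T κ H K Q`, `SBG` and `GLG` (`η = β + δ H`, `RBC` by `GRBC`): `S vol Q ≤ C' ∫ κ det Q S ≤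
C' C'' vol Q`, `vol Q > 0`, so `S = tr (h Q⁻¹) ≤ B` with `B > 0` independent of `δ`. `H ≤ C h ≤ C S Q ≤ C B Q`. Take `δ := min (1, 1/(2 C B))`, `Q` from `GB1`: `δ H ≤ (1/2) Q`. -/
def S_GB3 : Prop := ∀ {n : ℕ}, 0 < n → ∀ (T : Set (Cn n)) {G : Type u} [Group G]
  (R : G → Cn n → Cn n → Prop) (H h : Cn n → Matrix (Fin n) (Fin n) ℂ), GDat T R H h →
  ∀ (k : ℕ) (P : Cn n → Matrix (Fin n) (Fin n) ℂ), ParG k T R h P →
  ∃ (δ : ℝ) (Q : Cn n → Matrix (Fin n) (Fin n) ℂ), 0 < δ ∧ BKE T R H (fun x => P x * h x) δ Q ∧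
    ∀ x ∈ T, (Q x - (δ : ℂ) • H x).PosDef

/-- GB4. Existence for `δ = 0`. USES: `S_AYG`, GB3, RHOI, KETP.
PROOF. `δ, Q` from `GB3`. `X := Q - δ H` is a `KEt` metric. `AYG` for `Q`, `X`, `f = 0`: `Q₀ := X + LM u`, `det Q₀ = e^u det Q`; `rho Q₀ = LM u + rho Q = Q₀ - X + Q - β - δ H = Q₀ - β`. -/
def S_GB4 : Prop := ∀ {n : ℕ}, 0 < n → ∀ (T : Set (Cn n)) {G : Type u} [Group G]
  (R : G → Cn n → Cn n → Prop) (H h : Cn n → Matrix (Fin n) (Fin n) ℂ), GDat T R H h →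
  ∀ (k : ℕ) (P : Cn n → Matrix (Fin n) (Fin n) ℂ), ParG k T R h P →
  ∃ Q : Cn n → Matrix (Fin n) (Fin n) ℂ, BKE T R H (fun x => P x * h x) 0 Q

/-- GAL. Pointwise linear algebra.
PROOF. `β := P h = P h Pᴴ ≥ 0` has rank `k` (`P` has rank `k`). `Q = S Sᴴ`, `C := S⁻¹ β S⁻ᴴ ≥ 0` has rank `k`, eigenvalues `μ_1, …, μ_k > 0` and `0`; `tr (β Q⁻¹) = ∑ μ_i`, `tr ((β Q⁻¹)²) = ∑ μ_i²`, the
expression is `∑_{i ≤ k} (μ_i - 1)²`. If it vanishes then `C` is an orthogonal projector of rank `k`, `Q - β = S (1 - C) Sᴴ ≥ 0`, and `hermi (Q - β) e e = e (Q - β) eᴴ` (with the row `e`: `hermi A e e =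
∑ A i j e_i conj(e_j)`) `= ‖(e S)(1 - C)‖²` vanishes iff `(e S)(1 - C) = 0`, a space of dimension `k`. -/
def S_GAL : Prop := ∀ {n : ℕ} (k : ℕ) (h Q P : Matrix (Fin n) (Fin n) ℂ), h.PosDef →
  Q.PosDef → P * P = P → P * h = h * Pᴴ → Matrix.trace P = k →
  0 ≤ (Matrix.trace (P * h * Q⁻¹ * (P * h) * Q⁻¹)).re -
    2 * (Matrix.trace (P * h * Q⁻¹)).re + k ∧
  ((Matrix.trace (P * h * Q⁻¹ * (P * h) * Q⁻¹)).re - 2 * (Matrix.trace (P * h * Q⁻¹)).re + k = 0 →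
    (Q - P * h).PosSemidef ∧ ∃ V : Submodule ℂ (Cn n), Module.finrank ℂ V = k ∧
      ∀ e : Cn n, hermi (Q - P * h) e e = 0 ↔ e ∈ V)

/-- GB5. The form `β Q⁻¹` is a projector. USES: PUE, MCAL, CLG, AAPS, TRI, NULL0, TRC (Helper95), GPF, GVB, GAL.
PROOF. `κ` (`PUE`), `s := tr (β K)`, `K = Q⁻¹` (real, `InvF` by `TRI`), `0 ≤ s ≤ B` on `tsupport κ`. (1) For `0 < t ≤ 1/(B+1)`: `(1 + t)^k vol Q = ∫ κ det (Q + t β) ≤ ∫ κ det Q (1 + t s + t² s²)` and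
`≥ ∫ κ det Q (1 + t s)` (`GVB` (2), `TRC`); so `∫ κ det Q s = k vol Q`. (2) `CLG` with `Y = β`, `η = β`, `Γ = Gam h` (`GPF`: `cdM k β = Γ_k β`, `(cdbM l Γ_k) β = 0`): `trL Q s = - s + tr (β K β K) + AA`,
`AA ≥ 0` (`AAPS` with `Y = β`). (3) `q := tr (β K β K) - 2 s + k ≥ 0` (`GAL`). `∫ κ det Q q = ∫ κ det Q (trL Q s - s + k - AA) ≤ - k vol Q + k vol Q = 0` (`TRI` (2)). `q` is invariant and smooth
(`q = trL Q s - s + k - AA`; `β K = J (β K)(y) J⁻¹` by `IFN`). `NULL0`: `q = 0`. -/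
def S_GB5 : Prop := ∀ {n : ℕ} (T : Set (Cn n)) {G : Type u} [Group G]
  (R : G → Cn n → Cn n → Prop) (H h : Cn n → Matrix (Fin n) (Fin n) ℂ), GDat T R H h →
  ∀ (k : ℕ) (P : Cn n → Matrix (Fin n) (Fin n) ℂ), ParG k T R h P →
  ∀ Q : Cn n → Matrix (Fin n) (Fin n) ℂ, BKE T R H (fun x => P x * h x) 0 Q → ∀ x ∈ T,
  (Matrix.trace (P x * h x * (Q x)⁻¹ * (P x * h x) * (Q x)⁻¹)).re -
    2 * (Matrix.trace (P x * h x * (Q x)⁻¹)).re + k = 0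

/-- GPOST (assembly, helper15). -/
def S_GPOST : Prop := ∀ {n : ℕ}, 0 < n → ∀ (T : Set (Cn n)) {G : Type u} [Group G]
  (R : G → Cn n → Cn n → Prop) (H h : Cn n → Matrix (Fin n) (Fin n) ℂ), GDat T R H h →
  (∃ k < n, ∃ Q, KEt T R Q ∧ CorankK k (ld Q) T) ∨
    (CHF h T ∧ ∀ x ∈ T, ∀ i j k l, crv h x i j k l = 0)

end Pool.Agent.Helper15.GS
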