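import Pool.Agent.Helper15.GS.GoalsE
import Pool.Agent.Helper10.HS.GoalsL

/-!
# GS, goals F: the link to manifolds

`ω` is an invariant Kähler metric on `M` (`DataH n G M ω`), `q` an invariant Hermitian metric such that the square
of the length of every local holomorphic vector field is plurisubharmonic. The goals of
`Helper10/HS/GoalsL.lean` may be used as hypotheses.
-/

open Complex Metric Set Filter Topology MeasureTheory
open scoped ContDiff ComplexConjugate ComplexOrder Manifold Matrix

namespace Pool.Agent.Helper15.GS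

open Pool.Agent.Helper95.Lin Pool.Agent.Helper16.Abund Pool.Agent.Helper92.Orb
  Pool.Agent.Helper10.SP Pool.Agent.Helper95.RK Pool.Agent.Helper57.HS
  Pool.Agent.Helper15.HS Pool.Agent.Helper10.HS

universe u v

/-- The square of the length of every local holomorphic vector field is plurisubharmonic. -/
def PshM (n : ℕ) (M : Type*) [TopologicalSpace M] [ChartedSpace (Fin n → ℂ) M]
    (q : M → Matrix (Fin n) (Fin n) ℂ) : Prop :=
  ∀ (V : Set (Cn n)) (ψ : Cn n → M), Par n ψ V → ∀ σ : Cn n → Cn n, DifferentiableOn ℂ σ V →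
    ∀ z ∈ V, ∀ e, 0 ≤ lev (Pool.Agent.Helper15.RK.sqn n q ψ σ) z e

/-- HERM. The Hermitian metric on the étale relation. USES: PMH, PARH (`Helper10/HS/GoalsL.lean`).
PROOF. (1) `PMH` for `q`: positive definite, smooth. Let `(U, τ)` be a local arrow (`Arr`): for some `γ` and all `x ∈ U`: `x, τ x ∈ T` and `γ • E x = E (τ x)`. By `PMH`:
`hermi (pm n q E x) u w = hermi (pm n q (γ • E) x) u w = hermi (pm n q (E ∘ τ) x) u w = hermi (pm n q E (τ x)) (Dτ u) (Dτ w)` (`γ • E = E ∘ τ` near `x`; `Dτ x` is invertible because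
`jac (γ • E) x ≠ 0`, `PARH`; see `Helper4/RK/KETG.lean`, the same argument for the Kähler metric). (2) For `ψ = E`, `V = T` and a holomorphic `σ`: `sqn n q E σ = sqT (pm n q E) σ` near
every point of `T` (`PMH`), so the Levi forms agree; `GSNC`. -/
def S_HERM : Prop := ∀ {n : ℕ} {G : Type u} {M : Type v} [Group G] [MulAction G M]
  [TopologicalSpace M] [T2Space M] [ConnectedSpace M] [ChartedSpace (Fin n → ℂ) M]
  [IsManifold 𝓘(ℂ, Fin n → ℂ) ω M] {om q : M → Matrix (Fin n) (Fin n) ℂ}, DataH n G M om →
  HermMetric n M q → (∀ γ : G, InvMetric n q (fun y : M => γ • y)) →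
  ∀ (T : Set (Cn n)) (E : Cn n → M), Par n E T →
  (∃ C ⊆ T, IsCompact C ∧ ∀ p : M, ∃ (γ : G), ∃ x ∈ C, γ • p = E x) →
  HerT T (RelT (G := G) T E) (pm n q E) ∧ (PshM n M q → GSN (pm n q E) T)

/-- KAHM. A Hermitian metric which is closed on the étale relation is Kähler. USES: PARH, PMH, WCH.
PROOF. Let `ψ : V → M` be holomorphic (`HoloOn`), `z ∈ V`. Some `γ • ψ z = E x`, `x ∈ T`. Near `z` write `γ • ψ = E ∘ τ` with `τ` holomorphic, `τ z = x` (`E` has a local holomorphic inverse:
`PARH` (3) for the identity of a chart, or the inverse function theorem; `ψ` need not be a parametrization). By the invariance of `q`: `metricForm n q ψ y u w = (hermi (H (τ y)) (Dτ y u) (Dτ y w)).im`, `H := pm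
n q E`, near `z`. The form `κ_x(u, w) := (hermi (H x) u w).im` is closed on `T` (`CHF`: the `(1,1)` form with the Hermitian matrix `H` and `cd l H_ij = cd i H_lj`; expand `fderiv ℝ` in
`cd`, `cdb`), and the pull back of a closed form by a smooth map is closed (chain rule; the terms with the second derivative of `τ` cancel by its symmetry and the antisymmetry of `κ`). See `Helper4/RK/KETG.lean` or
`Helper3/SP/KET.lean` for the converse computation. Smoothness is in `HermMetric`. -/
def S_KAHM : Prop := ∀ {n : ℕ} {G : Type u} {M : Type v} [Group G] [MulAction G M]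
  [TopologicalSpace M] [T2Space M] [ConnectedSpace M] [ChartedSpace (Fin n → ℂ) M]
  [IsManifold 𝓘(ℂ, Fin n → ℂ) ω M] {om q : M → Matrix (Fin n) (Fin n) ℂ}, DataH n G M om →
  HermMetric n M q → (∀ γ : G, InvMetric n q (fun y : M => γ • y)) →
  ∀ (T : Set (Cn n)) (E : Cn n → M), Par n E T →
  (∃ C ⊆ T, IsCompact C ∧ ∀ p : M, ∃ (γ : G), ∃ x ∈ C, γ • p = E x) →
  CHF (pm n q E) T → KahlerMetric n M q

/-- The main theorem GS, internal form. -/
def S_MAINGS : Prop := ∀ {n : ℕ} {G : Type u} {M : Type v} [Group G] [MulAction G M]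
  [TopologicalSpace M] [T2Space M] [ConnectedSpace M] [ChartedSpace (Fin n → ℂ) M]
  [IsManifold 𝓘(ℂ, Fin n → ℂ) ω M] {om q : M → Matrix (Fin n) (Fin n) ℂ}, DataH n G M om →
  HermMetric n M q → (∀ γ : G, InvMetric n q (fun y : M => γ • y)) → PshM n M q →
  OrbSemiample n G M

end Pool.Agent.Helper15.GS
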