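import Pool.Agent.Helper15.GS.AsmM
import Pool.Agent.Helper57.HS.Asm
import Pool.Agent.Helper89.GS.GRBC

/-! # GS: the main theorem -/

open Complex Metric Set Filter Topology MeasureTheory
open scoped ContDiff ComplexConjugate ComplexOrder Manifold Matrix

namespace Pool.Agent.Helper15.GS.Asm

open Pool.Agent.Helper95.Lin Pool.Agent.Helper16.Abund Pool.Agent.Helper92.Orb
  Pool.Agent.Helper10.SP Pool.Agent.Helper95.RK Pool.Agent.Helper57.HS
  Pool.Agent.Helper15.HS Pool.Agent.Helper10.HS Pool.Agent.Helper15.RK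
  Pool.Agent.Helper10.SP.Asm Pool.Agent.Helper15.HS.Asm

universe u v

theorem t_GRBC : S_GRBC := Pool.Agent.Helper89.GS.grbc t_WIRT t_LMF t_MCAL t_CSY

theorem t_MAINGS : S_MAINGS.{u, v} := t_MAINGS_of t_GRBC Pool.Agent.Helper57.HS.Asm.t_AYG

end Pool.Agent.Helper15.GS.Asm
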